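import Pool.Agent.Helper13.NF.Defs

/-!
Basic properties of `TReal`.
-/

set_option autoImplicit false

open Finset

namespace Pool.Agent.Helper13.NF

theorem TReal.mono {C I : Type} {v : ℕ} {τ τ' : I → ℕ} (h : ∀ i, τ i ∣ τ' i)
    (H : TReal C I v τ') : TReal C I v τ := by
  obtain ⟨e, h1, h2, h3⟩ := H
  exact ⟨e, h1, h2, fun i => ⟨(h3 i).1, (h3 i).2.of_dvd (h i)⟩⟩

theorem TReal.reindex {C I J : Type} {v : ℕ} (σ : I ≃ J) {τ : I → ℕ} {τ' : J → ℕ}
    (h : ∀ i, τ i ∣ τ' (σ i)) (H : TReal C J v τ') : TReal C I v τ := by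
  obtain ⟨e, h1, h2, h3⟩ := H
  refine ⟨fun t => e (Sum.map (Prod.map σ id) id t), ?_, ?_, ?_⟩
  · exact h1.comp (Function.Injective.sumMap (σ.injective.prodMap Function.injective_id)
      Function.injective_id)
  · intro c
    exact h2 c
  · intro i
    exact ⟨(h3 (σ i)).1, (h3 (σ i)).2.of_dvd (h i)⟩

/-- realisability depends only on the numbers of elements with given keys. -/
theorem TReal.of_key {C I J Q : Type} [Fintype I] [Fintype J] [DecidableEq Q] {v : ℕ}
    {τ : I → ℕ} {τ' : J → ℕ} (a : I → Q) (b : J → Q)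
    (hcard : ∀ q, (univ.filter fun i => a i = q).card = (univ.filter fun j => b j = q).card)
    (hτ : ∀ i j, a i = b j → τ i ∣ τ' j)
    (H : TReal C J v τ') : TReal C I v τ := by
  have h : ∀ q, Nonempty ({i // a i = q} ≃ {j // b j = q}) := by
    intro q
    rw [← Fintype.card_eq, Fintype.card_subtype, Fintype.card_subtype]
    exact hcard q
  have σ : ∀ q, {i // a i = q} ≃ {j // b j = q} := fun q => (h q).some
  refine H.reindex (Equiv.ofFiberEquiv σ) ?_
  intro i
  apply hτ
  exact (Equiv.ofFiberEquiv_map σ i).symm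

/-- all types trivial. -/
theorem TReal.trivial_types {C I : Type} [Fintype C] [Fintype I] (α : ℕ) (τ : I → ℕ)
    (hτ : ∀ i, τ i = 1) (hcard : Fintype.card I = Fintype.card C * α) :
    TReal C I (2 * α + 1) τ := by
  have h : Nonempty (I ≃ C × Fin α) := by
    rw [← Fintype.card_eq, hcard, Fintype.card_prod, Fintype.card_fin]
  obtain ⟨σ⟩ := h
  refine TReal.reindex (τ' := fun _ => 1) σ (fun i => by rw [hτ]) ?_
  refine ⟨fun t => match t with
    | Sum.inl ((c, k), b) => (c, ⟨2 * (k : ℕ) + (if b then 1 else 0), by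
        have := k.isLt
        split_ifs <;> omega⟩)
    | Sum.inr c => (c, ⟨2 * α, by omega⟩), ?_, ?_, ?_⟩
  · rintro (⟨⟨c, k⟩, b⟩ | c) (⟨⟨c', k'⟩, b'⟩ | c') h
    · simp only [Prod.mk.injEq, Fin.mk.injEq] at h
      have h1 : (k : ℕ) = k' ∧ b = b' := by
        cases b <;> cases b' <;> simp at h ⊢ <;> omega
      rw [h.1, Fin.ext h1.1, h1.2]
    · exfalso
      simp only [Prod.mk.injEq, Fin.mk.injEq] at h
      have := k.isLt
      cases b <;> simp at h <;> omega
    · exfalso
      simp only [Prod.mk.injEq, Fin.mk.injEq] at h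
      have := k'.isLt
      cases b' <;> simp at h <;> omega
    · simp only [Prod.mk.injEq] at h
      rw [h.1]
  · intro c
    rfl
  · rintro ⟨c, k⟩
    exact ⟨rfl, Nat.modEq_one⟩

end Pool.Agent.Helper13.NF
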