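import Pool.Agent.Helper13.NF.Basic

/-!
The tight case and the raising case of the main induction.
-/

set_option autoImplicit false

open Finset

namespace Pool.Agent.Helper13.NF

/-- induction hypothesis: the main theorem below `v`. -/
def Below (v : ℕ) : Prop :=
  ∀ w, w < v → Odd w → ∀ (C I : Type) [Fintype C] [Fintype I] [Nonempty C] (τ : I → ℕ),
    Hall (Fintype.card C) w τ → TReal C I w τ

/-- statement of the splitting lemma (module M3). -/
def SplitStmt : Prop :=
  ∀ {C I₁ I₂ : Type} (D w : ℕ) (_ : 0 < D) (_ : 0 < w) (τ₁ : I₁ → ℕ)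
    (τ₂ : I₂ → ℕ) (_ : ∀ i, τ₁ i ∣ w) (_ : ∀ i, τ₂ i ∣ w * D)
    (_ : TReal (C × Fin D) I₁ w τ₁) (_ : TReal C I₂ D (fun i => Nat.gcd (τ₂ i) D)),
    TReal C (I₁ ⊕ I₂) (w * D) (Sum.elim (fun i => D * τ₁ i) τ₂)

theorem tight_case (hsplit : SplitStmt) (v : ℕ) (hv : Odd v) (IH : Below v) (C I : Type)
    [Fintype C] [Fintype I] [Nonempty C] (τ : I → ℕ) (H : Hall (Fintype.card C) v τ) (D : ℕ)
    (hD : D ∣ v) (h1 : 1 < D) (h2 : D < v)
    (ht : 2 * (univ.filter fun i => D ∣ τ i).card = Fintype.card C * (v - D)) :
    TReal C I v τ := by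
  classical
  obtain ⟨w, rfl⟩ := hD
  have hodd := Nat.odd_mul.mp hv
  have hw0 : 0 < w := by
    rcases Nat.eq_zero_or_pos w with h | h
    · rw [h] at h2; omega
    · exact h
  have hw1 : 1 < w := by
    rcases Nat.lt_or_ge 1 w with h | h
    · exact h
    · interval_cases w; omega
  obtain ⟨hc, hdvd, hH⟩ := H
  set m := Fintype.card C with hm
  have e1 : ∀ k, k ≤ w → D * w - D * k = D * (w - k) := fun k _ => (Nat.mul_sub D w k).symm
  -- inner list
  have R1 : TReal (C × Fin D) {i // D ∣ τ i} w (fun i => τ i / D) := by
    have : Nonempty (Fin D) := ⟨⟨0, by omega⟩⟩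
    apply IH w (by nlinarith) hodd.2
    refine ⟨?_, ?_, ?_⟩
    · rw [Fintype.card_subtype, ht, Fintype.card_prod, Fintype.card_fin, ← hm]
      have := e1 1 (by omega)
      rw [mul_one] at this
      rw [this, mul_assoc]
    · intro i
      obtain ⟨k, hk⟩ := i.2
      have h3 := hdvd i
      simp only
      rw [hk, Nat.mul_div_cancel_left _ (by omega)]
      rw [hk] at h3
      exact Nat.dvd_of_mul_dvd_mul_left (by omega) h3
    · intro E hE
      have h3 : (univ.filter fun i : {i // D ∣ τ i} => E ∣ τ i / D).card
          ≤ (univ.filter fun i : I => D * E ∣ τ i).card := by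
        apply Finset.card_le_card_of_injOn (fun i : {i // D ∣ τ i} => (i : I))
        · intro i hi
          rw [Finset.mem_coe, Finset.mem_filter] at hi ⊢
          refine ⟨Finset.mem_univ _, ?_⟩
          obtain ⟨k, hk⟩ := i.2
          have h4 := hi.2
          rw [hk, Nat.mul_div_cancel_left _ (by omega)] at h4
          rw [hk]
          exact Nat.mul_dvd_mul_left D h4
        · intro i _ j _ hij
          exact Subtype.ext hij
      have h4 := hH (D * E) (Nat.mul_dvd_mul_left D hE)
      rw [e1 E (Nat.le_of_dvd hw0 hE)] at h4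
      rw [Fintype.card_prod, Fintype.card_fin, ← hm, mul_assoc]
      beta_reduce
      omega
  -- outer list
  have R2 : TReal C {i // ¬ D ∣ τ i} D (fun i => Nat.gcd (τ i) D) := by
    apply IH D h2 hodd.1
    have hcompl : ∀ (p : I → Prop) [DecidablePred p], (∀ i, D ∣ τ i → p i) →
        (univ.filter fun i : {i // ¬ D ∣ τ i} => p i).card + (univ.filter fun i => D ∣ τ i).card
          ≤ (univ.filter fun i => p i).card := by
      intro p _ hp
      have h3 : (univ.filter fun i : {i // ¬ D ∣ τ i} => p i).card
          = (((univ.filter fun i : {i // ¬ D ∣ τ i} => p i)).map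
              (Function.Embedding.subtype _)).card := (Finset.card_map _).symm
      rw [h3, ← Finset.card_union_of_disjoint]
      · apply Finset.card_le_card
        intro i hi
        rw [Finset.mem_union, Finset.mem_map] at hi
        rw [Finset.mem_filter]
        refine ⟨Finset.mem_univ _, ?_⟩
        rcases hi with ⟨j, hj, rfl⟩ | hi
        · exact (Finset.mem_filter.mp hj).2
        · exact hp i (Finset.mem_filter.mp hi).2
      · rw [Finset.disjoint_left]
        intro i hi hi'
        rw [Finset.mem_map] at hi
        obtain ⟨j, -, rfl⟩ := hi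
        exact j.2 (Finset.mem_filter.mp hi').2
    refine ⟨?_, fun i => Nat.gcd_dvd_right _ _, ?_⟩
    · have h3 := Fintype.card_subtype_compl (fun i => D ∣ τ i)
      rw [h3, Fintype.card_subtype, Nat.mul_sub, hc, ht, ← hm, ← Nat.mul_sub]
      congr 1
      have : D ≤ D * w := Nat.le_mul_of_pos_right D hw0
      omega
    · intro E hE
      have h3 := hcompl (fun i => E ∣ Nat.gcd (τ i) D) (fun i hi => by
        rw [Nat.dvd_gcd_iff]; exact ⟨hE.trans hi, hE⟩)
      have h4 : (univ.filter fun i => E ∣ Nat.gcd (τ i) D).card
          = (univ.filter fun i => E ∣ τ i).card := by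
        congr 1
        apply Finset.filter_congr
        intro i _
        rw [Nat.dvd_gcd_iff]
        exact ⟨fun h => h.1, fun h => ⟨h, hE⟩⟩
      rw [h4] at h3
      have h5 := hH E (hE.trans (dvd_mul_right D w))
      have h6 : m * (D * w - D) + m * (D - E) = m * (D * w - E) := by
        rw [← mul_add]
        congr 1
        have h7 : D ≤ D * w := Nat.le_mul_of_pos_right D hw0
        have h8 := Nat.le_of_dvd (by omega) hE
        omega
      rw [← hm]
      beta_reduce
      omega
  have R := hsplit D w (by omega) hw0 (fun i : {i // D ∣ τ i} => τ i / D)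
    (fun i : {i // ¬ D ∣ τ i} => τ i) (by
      intro i
      obtain ⟨k, hk⟩ := i.2
      have h3 := hdvd i
      rw [hk, Nat.mul_div_cancel_left _ (by omega)]
      rw [hk] at h3
      exact Nat.dvd_of_mul_dvd_mul_left (by omega) h3)
    (by intro i; rw [mul_comm]; exact hdvd i) R1 R2
  rw [mul_comm w D] at R
  refine R.reindex (Equiv.sumCompl (fun i => D ∣ τ i)).symm ?_
  intro i
  obtain ⟨j, rfl⟩ := (Equiv.sumCompl (fun i => D ∣ τ i)).surjective i
  rw [Equiv.symm_apply_apply]
  rcases j with j | j
  · simp only [Sum.elim_inl, Equiv.sumCompl_apply_inl]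
    rw [Nat.mul_div_cancel' j.2]
  · simp only [Sum.elim_inr, Equiv.sumCompl_apply_inr]
    exact dvd_rfl

/-- raising one type. -/
theorem hall_raise (v : ℕ) (hv : Odd v) (m : ℕ) (I : Type) [Fintype I] [DecidableEq I]
    (τ : I → ℕ) (H : Hall m v τ)
    (ht : ∀ D, D ∣ v → 1 < D → D < v → 2 * (univ.filter fun i => D ∣ τ i).card ≠ m * (v - D))
    (i0 : I) (p : ℕ) (hpv : p * τ i0 ∣ v) (hne : p * τ i0 ≠ v) :
    Hall m v (Function.update τ i0 (p * τ i0)) := by
  obtain ⟨hc, hdvd, hH⟩ := H
  have hv0 : 0 < v := hv.pos
  refine ⟨hc, ?_, ?_⟩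
  · intro i
    by_cases h : i = i0
    · subst h; rw [Function.update_self]; exact hpv
    · rw [Function.update_of_ne h]; exact hdvd i
  · intro D hD
    have hDv := Nat.le_of_dvd hv0 hD
    rcases Nat.lt_or_ge 1 D with h1 | h1
    · rcases Nat.lt_or_ge D v with h2 | h2
      · have h3 : (univ.filter fun i => D ∣ Function.update τ i0 (p * τ i0) i).card
            ≤ (univ.filter fun i => D ∣ τ i).card + 1 := by
          have h4 : (univ.filter fun i => D ∣ Function.update τ i0 (p * τ i0) i)
              ⊆ insert i0 (univ.filter fun i => D ∣ τ i) := by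
            intro i hi
            rw [Finset.mem_filter] at hi
            rw [Finset.mem_insert, Finset.mem_filter]
            by_cases h : i = i0
            · left; exact h
            · right
              refine ⟨Finset.mem_univ _, ?_⟩
              have := hi.2
              rwa [Function.update_of_ne h] at this
          exact (Finset.card_le_card h4).trans (Finset.card_insert_le _ _)
        have h5 := ht D hD h1 h2
        have h6 := hH D hD
        have h7 : Even (m * (v - D)) := by
          apply Even.mul_left
          exact Nat.Odd.sub_odd hv (Odd.of_dvd_nat hv hD)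
        obtain ⟨r, hr⟩ := h7
        omega
      · have h3 : D = v := le_antisymm hDv h2
        subst h3
        have h4 : (univ.filter fun i => D ∣ Function.update τ i0 (p * τ i0) i) = ∅ := by
          rw [Finset.filter_eq_empty_iff]
          intro i _ hi
          by_cases h : i = i0
          · subst h
            rw [Function.update_self] at hi
            exact hne (Nat.dvd_antisymm hpv hi)
          · rw [Function.update_of_ne h] at hi
            have h5 := hH D dvd_rfl
            rw [Nat.sub_self, mul_zero] at h5
            have h6 : (univ.filter fun i => D ∣ τ i).card = 0 := by omega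
            rw [Finset.card_eq_zero, Finset.filter_eq_empty_iff] at h6
            exact h6 (Finset.mem_univ i) hi
        rw [h4]
        simp
    · have h2 : D = 1 := by
        have := Nat.pos_of_dvd_of_pos hD hv0
        omega
      subst h2
      have h3 : (univ.filter fun i => 1 ∣ Function.update τ i0 (p * τ i0) i).card
          ≤ Fintype.card I := by
        rw [← Finset.card_univ]
        exact Finset.card_filter_le _ _
      omega

end Pool.Agent.Helper13.NF
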