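import Pool.Agent.Helper13.NF.Count

/-!
The coatom case of the main induction.
-/

set_option autoImplicit false

open Finset

namespace Pool.Agent.Helper13.NF

def LevelsStmt : Prop :=
  ∀ {C Iz Ik Ic : Type} (α w : ℕ) (_ : 0 < w)
    (_ : Nat.Coprime (2 * α + 1) w) (τz : Iz → ℕ) (τk : Ik → ℕ) (τc : Ic → ℕ)
    (_ : ∀ i, τz i ∣ w) (_ : ∀ i, τk i ∣ w)
    (_ : TReal C Iz w τz)
    (_ : TReal (C × Fin α) (Ik ⊕ Ic) w (Sum.elim τk τc)),
    TReal C (Iz ⊕ ((Ik × Bool) ⊕ ((Ic × Bool) ⊕ (C × Fin α)))) ((2 * α + 1) * w)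
      (Sum.elim (fun i => (2 * α + 1) * τz i) (Sum.elim (fun i => (2 * α + 1) * τk i.1)
        (Sum.elim (fun _ => w) (fun _ => w))))

def SwitchStmt : Prop :=
  ∀ {C Iz Ik Ic : Type} [DecidableEq C] [DecidableEq Ik] (α w : ℕ)
    (_ : 0 < w) (_ : Nat.Coprime (2 * α + 1) w) (τz : Iz → ℕ) (τk : Ik → ℕ) (τc : Ic → ℕ)
    (_ : ∀ i, τz i ∣ w) (_ : ∀ i, τk i ∣ w) (_ : ∀ i, τc i ∣ w)
    (_ : TReal C Iz w τz)
    (_ : TReal (C × Fin α) (Ik ⊕ Ic) w (Sum.elim τk τc)) (i0 : Ik),
    TReal C (Iz ⊕ ((Ik × Bool) ⊕ ((Ic × Bool) ⊕ (C × Fin α)))) ((2 * α + 1) * w)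
      (Sum.elim (fun i => (2 * α + 1) * τz i)
        (Sum.elim (fun i => if i = (i0, true) then w else (2 * α + 1) * τk i.1)
        (Sum.elim (fun _ => w) (fun _ => w))))

def RoundingStmt : Prop :=
  ∀ (P : Finset ℕ) (_ : ∀ q ∈ P, q.Prime ∧ q ≠ 2) (m κ : ℕ) (_ : 0 < m)
    (_ : 3 ≤ κ) (_ : Odd κ) (n : ℕ → ℕ)
    (_ : ∀ S ⊆ P, κ * (m * ((∏ q ∈ S, q) - 1)) ≤ 2 * ∑ q ∈ S, n q)
    (_ : 2 * ∑ q ∈ P, n q = κ * (m * ((∏ q ∈ P, q) - 1))),
    ∃ z : ℕ → ℕ, (∀ q ∈ P, z q ≤ n q ∧ 2 ∣ (n q - z q) ∧ κ * z q ≤ n q + 2 * κ) ∧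
      (∀ S ⊆ P, m * ((∏ q ∈ S, q) - 1) ≤ 2 * ∑ q ∈ S, z q ∧
        2 * ∑ q ∈ S, z q + (κ - 1) * (m * ((∏ q ∈ S, q) - 1)) ≤ 2 * ∑ q ∈ S, n q)

def PeelStmt : Prop :=
  ∀ (P : Finset ℕ) (_ : ∀ q ∈ P, q.Prime ∧ q ≠ 2) (_ : 2 ≤ P.card) (m : ℕ)
    (_ : 0 < m) (n : ℕ → ℕ)
    (_ : ∀ S ⊆ P, m * ((∏ q ∈ S, q) - 1) ≤ 2 * ∑ q ∈ S, n q)
    (_ : 2 * ∑ q ∈ P, n q = m * ((∏ q ∈ P, q) - 1)),
    ∃ p1 ∈ P, ∃ p2 ∈ P, ∃ α e : ℕ, p1 ≠ p2 ∧ p1 = 2 * α + 1 ∧ n p1 = m * α + e ∧
      (∀ S ⊆ P.erase p1, p1 * (m * ((∏ q ∈ S, q) - 1)) ≤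
        2 * ∑ q ∈ S, (Function.update n p2 (n p2 + e)) q) ∧
      (2 * ∑ q ∈ P.erase p1, (Function.update n p2 (n p2 + e)) q
        = p1 * (m * ((∏ q ∈ P.erase p1, q) - 1))) ∧
      (∀ x, p1 * x ≤ n p2 + e + 2 * p1 → x ≤ n p2)

/-- facts about a maximal list. -/
lemma coatom_facts (v : ℕ) (hv : Odd v) (m : ℕ) (hm : 0 < m) (I : Type) [Fintype I] (τ : I → ℕ)
    (H : Hall m v τ) (hv1 : 1 < v)
    (hmax : ∀ i p, p.Prime → p * τ i ∣ v → p * τ i = v) :
    ∃ (P : Finset ℕ) (a : I → ℕ), (∀ q ∈ P, q.Prime ∧ q ≠ 2) ∧ ∏ q ∈ P, q = v ∧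
      (∀ i, a i ∈ P ∧ a i * τ i = v) ∧
      (∀ S ⊆ P, m * ((∏ q ∈ S, q) - 1) ≤ 2 * ∑ q ∈ S, cnt a q) ∧
      (2 * ∑ q ∈ P, cnt a q = m * ((∏ q ∈ P, q) - 1)) := by
  classical
  obtain ⟨hc, hdvd, hH⟩ := H
  have hv0 : 0 < v := by omega
  have hne : ∀ i, τ i ≠ v := by
    intro i hi
    have h1 := hH v dvd_rfl
    rw [Nat.sub_self, mul_zero] at h1
    have h2 : (univ.filter fun i => v ∣ τ i).card = 0 := by omega
    rw [Finset.card_eq_zero, Finset.filter_eq_empty_iff] at h2
    exact h2 (Finset.mem_univ i) (by rw [hi])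
  have hex : ∀ i, ∃ p : ℕ, p.Prime ∧ p * τ i = v := by
    intro i
    obtain ⟨k, hk⟩ := hdvd i
    have hk1 : k ≠ 1 := by
      rintro rfl
      rw [mul_one] at hk
      exact hne i hk.symm
    obtain ⟨p, hp, r, hr⟩ := Nat.exists_prime_and_dvd hk1
    refine ⟨p, hp, hmax i p hp ?_⟩
    rw [hk, hr]
    exact ⟨r, by ring⟩
  choose a ha using hex
  have hP2 : ∀ q ∈ v.primeFactors, q.Prime ∧ q ≠ 2 := by
    intro q hq
    refine ⟨Nat.prime_of_mem_primeFactors hq, ?_⟩
    rintro rfl
    have h1 := Nat.dvd_of_mem_primeFactors hq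
    rw [Nat.odd_iff] at hv
    omega
  have hI : 0 < Fintype.card I := by
    rcases Nat.eq_zero_or_pos (Fintype.card I) with h | h
    · exfalso
      rw [h, mul_zero] at hc
      have : 0 < m * (v - 1) := Nat.mul_pos hm (by omega)
      omega
    · exact h
  have hsq : Squarefree v := by
    rw [Nat.squarefree_iff_prime_squarefree]
    intro p hp hpp
    have h1 : ∀ i, p ∣ τ i := by
      intro i
      by_contra hcon
      have h2 : Nat.Coprime p (τ i) := (Nat.Prime.coprime_iff_not_dvd hp).mpr hcon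
      have h3 : p * p ∣ a i := by
        rw [← (ha i).2] at hpp
        exact (Nat.Coprime.mul_left h2 h2).dvd_of_dvd_mul_right hpp
      have h4 : p = a i := (Nat.prime_dvd_prime_iff_eq hp (ha i).1).mp ((dvd_mul_right p p).trans h3)
      rw [← h4] at h3
      have h5 := Nat.le_of_dvd hp.pos h3
      have h6 := hp.two_le
      nlinarith
    have h2 : (univ.filter fun i => p ∣ τ i) = univ := by
      rw [Finset.filter_eq_self]
      intro i _
      exact h1 i
    have h3 := hH p ((dvd_mul_right p p).trans hpp)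
    rw [h2, Finset.card_univ, hc] at h3
    have h4 : v - 1 ≤ v - p := Nat.le_of_mul_le_mul_left h3 hm
    have h5 := hp.two_le
    have h6 := Nat.le_of_dvd hv0 ((dvd_mul_right p p).trans hpp)
    omega
  have hprod : ∏ q ∈ v.primeFactors, q = v := Nat.prod_primeFactors_of_squarefree hsq
  have haP : ∀ i, a i ∈ v.primeFactors := by
    intro i
    rw [Nat.mem_primeFactors]
    exact ⟨(ha i).1, ⟨τ i, (ha i).2.symm⟩, hv0.ne'⟩
  have hsum : ∀ S : Finset ℕ, ∑ q ∈ S, cnt a q = (univ.filter fun i => a i ∈ S).card := by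
    intro S
    have h1 := Finset.card_eq_sum_card_fiberwise (s := univ.filter fun i => a i ∈ S) (t := S)
      (f := a) (by
        intro i hi
        rw [Finset.mem_coe, Finset.mem_filter] at hi
        exact hi.2)
    rw [h1]
    apply Finset.sum_congr rfl
    intro q hq
    rw [cnt, Finset.filter_filter]
    congr 1
    apply Finset.filter_congr
    intro i _
    constructor
    · intro h2
      exact ⟨by rw [h2]; exact hq, h2⟩
    · intro h2
      exact h2.2
  refine ⟨v.primeFactors, a, hP2, hprod, fun i => ⟨haP i, (ha i).2⟩, ?_, ?_⟩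
  · intro S hS
    rw [hsum]
    set E := ∏ q ∈ S, q with hE
    have hEv : E ∣ v := by
      rw [← hprod]
      exact Finset.prod_dvd_prod_of_subset _ _ _ hS
    have h1 : (univ.filter fun i => ¬ a i ∈ S).card ≤ (univ.filter fun i => E ∣ τ i).card := by
      apply Finset.card_le_card
      intro i hi
      rw [Finset.mem_filter] at hi ⊢
      refine ⟨Finset.mem_univ _, ?_⟩
      have h2 : Nat.Coprime E (a i) := by
        rw [hE]
        apply Nat.Coprime.prod_left
        intro q hq
        rw [Nat.coprime_primes (hP2 q (hS hq)).1 (ha i).1]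
        rintro rfl
        exact hi.2 hq
      have h3 : E ∣ a i * τ i := by rw [(ha i).2]; exact hEv
      exact h2.dvd_of_dvd_mul_left h3
    have h2 := hH E hEv
    have h3 : (univ.filter fun i => a i ∈ S).card + (univ.filter fun i => ¬ a i ∈ S).card
        = Fintype.card I := by
      rw [Finset.card_filter_add_card_filter_not, Finset.card_univ]
    have hE0 : 0 < E := Nat.pos_of_dvd_of_pos hEv hv0
    have h4 : m * (v - E) + m * (E - 1) = m * (v - 1) := by
      rw [← mul_add]
      congr 1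
      have := Nat.le_of_dvd hv0 hEv
      omega
    omega
  · rw [hsum, hprod, ← hc, Finset.filter_eq_self.mpr (fun i _ => haP i), Finset.card_univ]

theorem coatom_case (hL : LevelsStmt) (hS : SwitchStmt) (hR : RoundingStmt) (hPe : PeelStmt)
    (v : ℕ) (hv : Odd v) (IH : Below v) (C I : Type) [Fintype C] [Fintype I] [Nonempty C]
    (τ : I → ℕ) (H : Hall (Fintype.card C) v τ) (hv1 : 1 < v)
    (hmax : ∀ i p, p.Prime → p * τ i ∣ v → p * τ i = v) : TReal C I v τ := by
  classical
  set m := Fintype.card C with hmdef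
  have hm : 0 < m := Fintype.card_pos
  obtain ⟨P, a, hP, hprod, ha, h, heq⟩ := coatom_facts v hv m hm I τ H hv1 hmax
  rcases Nat.lt_or_ge P.card 2 with hc | hc
  · -- one prime
    have hc1 : P.card = 1 := by
      rcases Nat.eq_zero_or_pos P.card with h0 | h0
      · rw [Finset.card_eq_zero] at h0
        rw [h0, Finset.prod_empty] at hprod
        omega
      · omega
    obtain ⟨p, rfl⟩ := Finset.card_eq_one.mp hc1
    rw [Finset.prod_singleton] at hprod
    have hτ : ∀ i, τ i = 1 := by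
      intro i
      have h1 := (ha i).1
      rw [Finset.mem_singleton] at h1
      have h2 := (ha i).2
      rw [h1, hprod] at h2
      exact (Nat.mul_eq_left (by omega)).mp h2
    obtain ⟨α, hα⟩ := hv
    have h1 := H.1
    have h2 : Fintype.card I = m * α := by
      rw [hα, Nat.add_sub_cancel] at h1
      have h3 : m * (2 * α) = 2 * (m * α) := by ring
      omega
    rw [hα]
    exact TReal.trivial_types α τ hτ h2
  · obtain ⟨p1, hp1, p2, hp2, α, e, hne, hpα, hne1, h1, h1eq, hx⟩ := hPe P hP hc m hm (cnt a) h heq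
    set n' := Function.update (cnt a) p2 (cnt a p2 + e) with hn'
    set P' := P.erase p1 with hP'def
    have hP' : ∀ q ∈ P', q.Prime ∧ q ≠ 2 := fun q hq => hP q (Finset.mem_of_mem_erase hq)
    have hp3 : 3 ≤ p1 := by
      have h2 := (hP p1 hp1).1.two_le
      have h3 := (hP p1 hp1).2
      omega
    have hα : 1 ≤ α := by omega
    have hp2' : p2 ∈ P' := Finset.mem_erase.mpr ⟨hne.symm, hp2⟩
    obtain ⟨z, hz1, hz2⟩ := hR P' hP' m p1 hm hp3 ⟨α, hpα⟩ n' h1 h1eq
    set w := ∏ q ∈ P', q with hw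
    have hvw : p1 * w = v := by
      rw [← hprod, hw, hP'def]
      exact Finset.mul_prod_erase P (fun q => q) hp1
    have hw0 : 0 < w := Finset.prod_pos (fun q hq => (hP' q hq).1.pos)
    have hwv : w < v := by
      rw [← hvw]
      nlinarith
    have hwodd : Odd w := Odd.of_dvd_nat hv ⟨p1, by rw [← hvw]; ring⟩
    have hcop : Nat.Coprime (2 * α + 1) w := by
      rw [← hpα, hw]
      apply Nat.Coprime.prod_right
      intro q hq
      rw [Nat.coprime_primes (hP p1 hp1).1 (hP' q hq).1]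
      exact (Finset.ne_of_mem_erase hq).symm
    -- the list `y`
    set y : ℕ → ℕ := fun q => (n' q - z q) / 2 with hy
    have hy2 : ∀ q ∈ P', 2 * y q + z q = n' q := by
      intro q hq
      obtain ⟨h2, h3, -⟩ := hz1 q hq
      have h4 := Nat.mul_div_cancel' h3
      simp only [hy]
      omega
    have hysum : ∀ S ⊆ P', 2 * ∑ q ∈ S, y q + ∑ q ∈ S, z q = ∑ q ∈ S, n' q := by
      intro S hS
      rw [Finset.mul_sum, ← Finset.sum_add_distrib]
      exact Finset.sum_congr rfl (fun q hq => hy2 q (hS hq))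
    have hp1m : ∀ t, p1 * (m * t) = (p1 - 1) * (m * t) + m * t := by
      intro t
      obtain ⟨r, hr⟩ : ∃ r, p1 = r + 1 := ⟨p1 - 1, by omega⟩
      rw [hr, Nat.add_sub_cancel]
      ring
    have hp1α : ∀ t, (p1 - 1) * (m * t) = 2 * (m * α * t) := by
      intro t
      rw [hpα, Nat.add_sub_cancel]
      ring
    have hzeq : 2 * ∑ q ∈ P', z q = m * (w - 1) := by
      have h2 := hz2 P' (Finset.Subset.refl _)
      rw [← hw, h1eq, hp1m] at h2
      omega
    have hHz : Hall m w (fun i : Idx P' z => w / (i.1 : ℕ)) :=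
      hall_idx P' (fun q hq => (hP' q hq).1) m z (fun S hS => (hz2 S hS).1) hzeq
    have RZ : TReal C (Idx P' z) w (fun i => w / (i.1 : ℕ)) := IH w hwv hwodd C _ _ hHz
    have hHy : Hall (m * α) w (fun i : Idx P' y => w / (i.1 : ℕ)) := by
      apply hall_idx P' (fun q hq => (hP' q hq).1) (m * α) y
      · intro S hS
        have h2 := (hz2 S hS).2
        have h3 := hysum S hS
        rw [hp1α] at h2
        omega
      · have h3 := hysum P' (Finset.Subset.refl _)
        have h4 := h1eq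
        rw [hp1m, hp1α] at h4
        have h5 := hzeq
        rw [← hw]
        omega
    have hne' : Nonempty (Fin α) := ⟨⟨0, by omega⟩⟩
    have RY : TReal (C × Fin α) (Idx P' y) w (fun i => w / (i.1 : ℕ)) := by
      apply IH w hwv hwodd
      rw [Fintype.card_prod, Fintype.card_fin]
      exact hHy
    -- conversions
    have hzp2 : z p2 ≤ cnt a p2 := by
      apply hx
      have h2 := (hz1 p2 hp2').2.2
      rw [hn', Function.update_self] at h2
      omega
    have hyp2 : 2 * y p2 + z p2 = cnt a p2 + e := by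
      have h2 := hy2 p2 hp2'
      rw [hn', Function.update_self] at h2
      exact h2
    have hyq : ∀ q ∈ P', q ≠ p2 → 2 * y q + z q = cnt a q := by
      intro q hq hqp
      have h2 := hy2 q hq
      rw [hn', Function.update_of_ne hqp] at h2
      exact h2
    set ρ := e / 2 with hρ
    set k : ℕ → ℕ := fun q => if q = p2 then y q - ρ else y q with hk
    have hkp2 : k p2 = y p2 - ρ := by simp only [hk, if_true]
    have hkq : ∀ q, q ≠ p2 → k q = y q := by
      intro q hq
      simp only [hk, if_neg hq]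
    have RY' : TReal (C × Fin α) (Idx P' k ⊕ Fin ρ) w
        (Sum.elim (fun i => w / (i.1 : ℕ)) (fun _ => w / p2)) := by
      refine RY.of_key (Sum.elim (fun i : Idx P' k => (i.1 : ℕ)) (fun _ => p2))
        (fun i : Idx P' y => (i.1 : ℕ)) ?_ ?_
      · intro q
        change cnt _ q = cnt _ q
        rw [cnt_sum, cnt_idx, cnt_idx, cnt_const, Fintype.card_fin]
        by_cases hq : p2 = q
        · subst hq
          rw [if_pos hp2', if_pos rfl, if_pos hp2', hkp2]
          omega
        · rw [if_neg hq, add_zero, hkq q (fun h => hq h.symm)]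
      · rintro (i | i) j hij
        · simp only [Sum.elim_inl] at hij ⊢
          rw [hij]
        · simp only [Sum.elim_inr] at hij ⊢
          rw [hij]
    -- types
    have hveq : v = (2 * α + 1) * w := by rw [← hpα, hvw]
    have hp1pos : 0 < p1 := by omega
    have fact1 : ∀ i, a i = p1 → τ i = w := by
      intro i hi
      have h2 := (ha i).2
      rw [hi, ← hvw] at h2
      exact Nat.eq_of_mul_eq_mul_left hp1pos h2
    have fact2 : ∀ i, ∀ q ∈ P', a i = q → τ i = (2 * α + 1) * (w / q) := by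
      intro i q hq hi
      have h2 := (ha i).2
      have h3 : q * (w / q) = w := Nat.mul_div_cancel' (Finset.dvd_prod_of_mem _ hq)
      rw [hi, ← hvw, ← h3] at h2
      have h4 : q * τ i = q * ((2 * α + 1) * (w / q)) := by
        rw [h2, ← hpα]
        ring
      exact Nat.eq_of_mul_eq_mul_left (hP' q hq).1.pos h4
    have hcnt0 : ∀ q, q ∉ P → cnt a q = 0 := by
      intro q hq
      rw [cnt, Finset.card_eq_zero, Finset.filter_eq_empty_iff]
      intro i _ hi
      exact hq (hi ▸ (ha i).1)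
    have hp1P' : p1 ∉ P' := Finset.notMem_erase p1 P
    have hdz : ∀ i : Idx P' z, w / (i.1 : ℕ) ∣ w :=
      fun i => Nat.div_dvd_of_dvd (Finset.dvd_prod_of_mem _ i.1.2)
    have hdk : ∀ i : Idx P' k, w / (i.1 : ℕ) ∣ w :=
      fun i => Nat.div_dvd_of_dvd (Finset.dvd_prod_of_mem _ i.1.2)
    rw [hveq]
    rcases Nat.even_or_odd' e with ⟨e', he | he⟩
    · have hρe : 2 * ρ = e := by omega
      refine TReal.of_key a (Sum.elim (fun i : Idx P' z => (i.1 : ℕ))
        (Sum.elim (fun i : Idx P' k × Bool => (i.1.1 : ℕ))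
        (Sum.elim (fun _ : Fin ρ × Bool => p1) (fun _ : C × Fin α => p1)))) ?_ ?_
        (hL α w hw0 hcop (fun i : Idx P' z => w / (i.1 : ℕ)) (fun i : Idx P' k => w / (i.1 : ℕ))
          (fun _ : Fin ρ => w / p2) hdz hdk RZ RY')
      · intro q
        change cnt a q = cnt _ q
        rw [cnt_sum, cnt_idx, cnt_sum, cnt_prod_bool (fun i : Idx P' k => (i.1 : ℕ)), cnt_idx,
          cnt_sum, cnt_const, cnt_const, Fintype.card_prod, Fintype.card_prod, Fintype.card_fin,
          Fintype.card_fin, Fintype.card_bool, ← hmdef]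
        by_cases hq1 : p1 = q
        · subst hq1
          rw [if_neg hp1P', if_neg hp1P', if_pos rfl, if_pos rfl, hne1]
          omega
        · rw [if_neg hq1, if_neg hq1]
          by_cases hqP : q ∈ P'
          · rw [if_pos hqP, if_pos hqP]
            by_cases hq2 : q = p2
            · subst hq2
              rw [hkp2]
              omega
            · rw [hkq q hq2]
              have := hyq q hqP hq2
              omega
          · rw [if_neg hqP, if_neg hqP]
            have h2 : q ∉ P := fun h3 => hqP (Finset.mem_erase.mpr ⟨fun h4 => hq1 h4.symm, h3⟩)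
            rw [hcnt0 q h2]
      · rintro i (j | ⟨j, b⟩ | j | j) hij
        · simp only [Sum.elim_inl] at hij ⊢
          rw [fact2 i _ j.1.2 hij]
        · simp only [Sum.elim_inl, Sum.elim_inr] at hij ⊢
          rw [fact2 i _ j.1.2 hij]
        · simp only [Sum.elim_inl, Sum.elim_inr] at hij ⊢
          rw [fact1 i hij]
        · simp only [Sum.elim_inr] at hij ⊢
          rw [fact1 i hij]
    · have hρe : 2 * ρ + 1 = e := by omega
      have hkpos : 0 < k p2 := by
        rw [hkp2]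
        omega
      set i0 : Idx P' k := ⟨⟨p2, hp2'⟩, ⟨0, hkpos⟩⟩ with hi0
      refine TReal.of_key a (Sum.elim (fun i : Idx P' z => (i.1 : ℕ))
        (Sum.elim (fun i : Idx P' k × Bool => if i = (i0, true) then p1 else (i.1.1 : ℕ))
        (Sum.elim (fun _ : Fin ρ × Bool => p1) (fun _ : C × Fin α => p1)))) ?_ ?_
        (hS α w hw0 hcop (fun i : Idx P' z => w / (i.1 : ℕ)) (fun i : Idx P' k => w / (i.1 : ℕ))
          (fun _ : Fin ρ => w / p2) hdz hdk
          (fun _ => Nat.div_dvd_of_dvd (Finset.dvd_prod_of_mem _ hp2')) RZ RY' i0)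
      · intro q
        change cnt a q = cnt _ q
        have hupd := cnt_update (fun i : Idx P' k × Bool => (i.1.1 : ℕ)) (i0, true) p1 q
        rw [cnt_prod_bool (fun i : Idx P' k => (i.1 : ℕ)), cnt_idx] at hupd
        change cnt _ q + (if p2 = q then 1 else 0) = _ at hupd
        rw [cnt_sum, cnt_idx, cnt_sum,
          cnt_sum, cnt_const, cnt_const, Fintype.card_prod, Fintype.card_prod, Fintype.card_fin,
          Fintype.card_fin, Fintype.card_bool, ← hmdef]
        by_cases hq1 : p1 = q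
        · subst hq1
          rw [if_neg hp1P', if_pos rfl, if_neg hne.symm] at hupd
          rw [if_neg hp1P', if_pos rfl, if_pos rfl, hne1]
          omega
        · rw [if_neg hq1] at hupd
          rw [if_neg hq1, if_neg hq1]
          by_cases hqP : q ∈ P'
          · rw [if_pos hqP] at hupd
            rw [if_pos hqP]
            by_cases hq2 : q = p2
            · rw [hq2, hkp2, if_pos rfl] at hupd
              rw [hq2]
              omega
            · rw [hkq q hq2, if_neg (fun h => hq2 h.symm)] at hupd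
              have := hyq q hqP hq2
              omega
          · have h2 : q ∉ P := fun h3 => hqP (Finset.mem_erase.mpr ⟨fun h4 => hq1 h4.symm, h3⟩)
            have h3 : ¬ p2 = q := by
              rintro rfl
              exact hqP hp2'
            rw [if_neg hqP, if_neg h3] at hupd
            rw [if_neg hqP, hcnt0 q h2]
            omega
      · rintro i (j | ⟨j, b⟩ | j | j) hij
        · simp only [Sum.elim_inl] at hij ⊢
          rw [fact2 i _ j.1.2 hij]
        · simp only [Sum.elim_inl, Sum.elim_inr] at hij ⊢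
          split_ifs at hij ⊢ with h2
          · rw [fact1 i hij]
          · rw [fact2 i _ j.1.2 hij]
        · simp only [Sum.elim_inl, Sum.elim_inr] at hij ⊢
          rw [fact1 i hij]
        · simp only [Sum.elim_inr] at hij ⊢
          rw [fact1 i hij]

end Pool.Agent.Helper13.NF
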