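import Mathlib

/-!
Interface lemmas for near 1-factors (copied from helper90's hand-in ThreeTimesPrime of
MP_6cccb1_co): from pairs in `ZMod N` to the statement, and necessity of the divisor condition.
-/

set_option autoImplicit false

open Finset

namespace Pool.Agent.Helper13.NF

/-- from disjoint pairs in `ZMod N` to a near 1-factor. -/
lemma finish (n N : ℕ) (hN : N = 2 * n + 1) (e : Fin n → ℕ) (he : ∀ i, 1 ≤ e i ∧ e i ≤ n)
    (X Y : Fin n → ZMod N)
    (hinj : Function.Injective (fun r : Fin n × Bool => if r.2 then Y r.1 else X r.1))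
    (hd : ∀ i, Y i = X i + e i ∨ X i = Y i + e i) :
    ∃ g : Fin n ⊕ Fin n → Fin (2 * n + 1), Function.Injective g ∧
      Multiset.map
        (fun i : Fin n =>
          min (Int.natAbs (((g (Sum.inl i) : ℕ) : ℤ) - ((g (Sum.inr i) : ℕ) : ℤ)))
            (2 * n + 1 - Int.natAbs (((g (Sum.inl i) : ℕ) : ℤ) - ((g (Sum.inr i) : ℕ) : ℤ))))
        (Finset.univ : Finset (Fin n)).val = Multiset.map e (Finset.univ : Finset (Fin n)).val := by
  subst hN
  refine ⟨fun r => ⟨ZMod.val (r.elim X Y), ZMod.val_lt _⟩, ?_, ?_⟩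
  · intro r r' h
    have h1 := ZMod.val_injective _ (Fin.mk.inj h)
    rcases r with i | i <;> rcases r' with j | j
    · have h2 := @hinj (i, false) (j, false) h1
      simp only [Prod.mk.injEq, and_true] at h2
      rw [h2]
    · have h2 := @hinj (i, false) (j, true) h1
      simp at h2
    · have h2 := @hinj (i, true) (j, false) h1
      simp at h2
    · have h2 := @hinj (i, true) (j, true) h1
      simp only [Prod.mk.injEq, and_true] at h2
      rw [h2]
  · refine Multiset.map_congr rfl ?_
    intro i _
    simp only [Sum.elim_inl, Sum.elim_inr]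
    have h3 := he i
    have key : ∀ a b : ZMod (2 * n + 1), b = a + e i →
        (b.val = a.val + e i ∧ a.val + e i < 2 * n + 1) ∨
        (b.val + (2 * n + 1) = a.val + e i) := by
      intro a b hab
      have h4 : b.val = (a.val + e i) % (2 * n + 1) := by
        rw [hab, ZMod.val_add, ZMod.val_natCast_of_lt (by omega)]
      have h5 := ZMod.val_lt a
      rcases Nat.lt_or_ge (a.val + e i) (2 * n + 1) with h6 | h6
      · left
        rw [Nat.mod_eq_of_lt h6] at h4
        exact ⟨h4, h6⟩
      · right
        rw [Nat.mod_eq_sub_mod h6, Nat.mod_eq_of_lt (by omega)] at h4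
        omega
    have hX := ZMod.val_lt (X i)
    have hY := ZMod.val_lt (Y i)
    rcases hd i with h | h
    · have := key _ _ h
      omega
    · have := key _ _ h
      omega

lemma card_filter_map {n : ℕ} (e : Fin n → ℕ) (d : ℕ) :
    Multiset.card (Multiset.filter (fun x => d ∣ x)
      (Multiset.map e (Finset.univ : Finset (Fin n)).val))
      = (Finset.univ.filter fun i : Fin n => d ∣ e i).card := by
  rw [Multiset.filter_map, Multiset.card_map]
  rfl

/-- necessity of the divisor condition. -/
theorem necessary (n : ℕ) (d : ℕ) (hd : d ∣ 2 * n + 1) (g : Fin n ⊕ Fin n → Fin (2 * n + 1))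
    (hg : Function.Injective g) :
    (Finset.univ.filter fun i : Fin n => d ∣
      min (Int.natAbs (((g (Sum.inl i) : ℕ) : ℤ) - ((g (Sum.inr i) : ℕ) : ℤ)))
        (2 * n + 1 - Int.natAbs (((g (Sum.inl i) : ℕ) : ℤ) - ((g (Sum.inr i) : ℕ) : ℤ)))).card
      ≤ (2 * n + 1 - d) / 2 := by
  obtain ⟨m, hm⟩ := hd
  have hd0 : 0 < d := by
    rcases Nat.eq_zero_or_pos d with h | h
    · rw [h] at hm; omega
    · exact h
  have hm1 : m % 2 = 1 := by
    rcases Nat.mod_two_eq_zero_or_one m with h | h
    · exfalso
      obtain ⟨k, rfl⟩ := Nat.dvd_of_mod_eq_zero h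
      have : d * (2 * k) = 2 * (d * k) := by ring
      omega
    · exact h
  set S := Finset.univ.filter fun i : Fin n => d ∣
      min (Int.natAbs (((g (Sum.inl i) : ℕ) : ℤ) - ((g (Sum.inr i) : ℕ) : ℤ)))
        (2 * n + 1 - Int.natAbs (((g (Sum.inl i) : ℕ) : ℤ) - ((g (Sum.inr i) : ℕ) : ℤ))) with hS
  have hmod : ∀ i ∈ S, (g (Sum.inl i) : ℕ) % d = (g (Sum.inr i) : ℕ) % d := by
    intro i hi
    rw [hS, Finset.mem_filter] at hi
    have h1 := hi.2
    have ha := (g (Sum.inl i)).isLt
    have hb := (g (Sum.inr i)).isLt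
    set a := (g (Sum.inl i) : ℕ)
    set b := (g (Sum.inr i) : ℕ)
    have h2 : (d : ℤ) ∣ (a : ℤ) - b := by
      rcases min_choice (Int.natAbs ((a : ℤ) - b)) (2 * n + 1 - Int.natAbs ((a : ℤ) - b)) with h | h
      · rw [h] at h1
        exact Int.natCast_dvd.mpr h1
      · rw [h] at h1
        have h3 : d ∣ 2 * n + 1 := ⟨m, hm⟩
        have h4 : Int.natAbs ((a : ℤ) - b) ≤ 2 * n + 1 := by omega
        have h5 : d ∣ Int.natAbs ((a : ℤ) - b) := by
          have h6 := (Nat.dvd_sub h3 h1)
          rwa [Nat.sub_sub_self h4] at h6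
        exact Int.natCast_dvd.mpr h5
    exact (Nat.modEq_iff_dvd.mpr (by
      have := (dvd_neg.mpr h2)
      rwa [neg_sub] at this))
  have hfib := Finset.card_eq_sum_card_fiberwise (s := S) (t := range d)
    (f := fun i => (g (Sum.inl i) : ℕ) % d) (fun i _ => by
      rw [Finset.mem_coe, Finset.mem_range]
      exact Nat.mod_lt _ hd0)
  have hle : ∀ ρ ∈ range d, (S.filter fun i => (g (Sum.inl i) : ℕ) % d = ρ).card ≤ (m - 1) / 2 := by
    intro ρ _
    set T := S.filter fun i => (g (Sum.inl i) : ℕ) % d = ρ with hT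
    have h1 : (T ×ˢ (univ : Finset Bool)).card ≤ (range m).card := by
      apply Finset.card_le_card_of_injOn
        (fun r => (if r.2 then (g (Sum.inr r.1) : ℕ) else (g (Sum.inl r.1) : ℕ)) / d)
      · rintro ⟨i, b⟩ _
        rw [Finset.mem_coe, Finset.mem_range]
        apply Nat.div_lt_of_lt_mul
        rw [← hm]
        split_ifs
        · exact (g (Sum.inr i)).isLt
        · exact (g (Sum.inl i)).isLt
      · rintro ⟨i, b⟩ hi ⟨i', b'⟩ hi' hii
        rw [Finset.mem_coe, Finset.mem_product, hT, Finset.mem_filter] at hi hi'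
        have h2 := hi.1.2
        have h3 := hi'.1.2
        have h4 := hmod i hi.1.1
        have h5 := hmod i' hi'.1.1
        simp only at h2 h3 hii
        have h6 : ∀ a b : ℕ, a / d = b / d → a % d = b % d → a = b := by
          intro a b hab hab'
          rw [← Nat.div_add_mod a d, ← Nat.div_add_mod b d, hab, hab']
        cases b <;> cases b' <;> simp only [if_true, Bool.false_eq_true, if_false] at hii
        · have h7 := h6 _ _ hii (by rw [h2, h3])
          have h8 := hg (Fin.ext h7)
          simp only [Sum.inl.injEq] at h8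
          rw [h8]
        · have h7 := h6 _ _ hii (by rw [← h5, h2, h3])
          have h8 := hg (Fin.ext h7)
          simp at h8
        · have h7 := h6 _ _ hii (by rw [← h4, h2, h3])
          have h8 := hg (Fin.ext h7)
          simp at h8
        · have h7 := h6 _ _ hii (by rw [← h4, ← h5, h2, h3])
          have h8 := hg (Fin.ext h7)
          simp only [Sum.inr.injEq] at h8
          rw [h8]
    rw [Finset.card_product, Finset.card_univ, Fintype.card_bool, Finset.card_range] at h1
    omega
  have h1 := Finset.sum_le_sum hle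
  rw [← hfib, Finset.sum_const, Finset.card_range, smul_eq_mul] at h1
  obtain ⟨k, hk⟩ : ∃ k, m = 2 * k + 1 := ⟨m / 2, by omega⟩
  have h2 : (m - 1) / 2 = k := by omega
  rw [h2] at h1
  have h3 : 2 * n + 1 - d = 2 * (d * k) := by
    rw [hm, hk]
    have : d * (2 * k + 1) = 2 * (d * k) + d := by ring
    omega
  rw [h3]
  omega

end Pool.Agent.Helper13.NF
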