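import Pool.Agent.Helper13.NF.Iter
import Pool.Agent.Helper13.NF.Iface

/-!
Families of near 1-factors: the version of the theorem for `m` copies of `K_v`.
-/

set_option autoImplicit false

open Finset

namespace Pool.Agent.Helper13.NF

/-- one copy: exact lengths for an index type with `n` elements. -/
theorem one_copy (n : ℕ) {ι : Type} [Fintype ι] (hι : Fintype.card ι = n) (x : ι → ℕ)
    (f : (ι × Bool) ⊕ Unit → ZMod (2 * n + 1)) (hf : Function.Injective f)
    (hmem : ∀ i, f (Sum.inl (i, true)) - f (Sum.inl (i, false)) ∈
      AddSubgroup.zmultiples ((x i : ℕ) : ZMod (2 * n + 1)))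
    (hx : ∀ i, 1 ≤ x i ∧ x i ≤ n) :
    ∃ g : Fin n ⊕ Fin n → Fin (2 * n + 1), Function.Injective g ∧
      Multiset.map
        (fun i : Fin n =>
          min (Int.natAbs (((g (Sum.inl i) : ℕ) : ℤ) - ((g (Sum.inr i) : ℕ) : ℤ)))
            (2 * n + 1 - Int.natAbs (((g (Sum.inl i) : ℕ) : ℤ) - ((g (Sum.inr i) : ℕ) : ℤ))))
        (Finset.univ : Finset (Fin n)).val = Multiset.map x (Finset.univ : Finset ι).val := by
  classical
  have : NeZero (2 * n + 1) := ⟨by omega⟩
  have hcard : Fintype.card ((ι × Bool) ⊕ Unit) = Fintype.card (ZMod (2 * n + 1)) := by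
    rw [ZMod.card]
    simp [hι]
    ring
  have hbij : Function.Bijective f := (Fintype.bijective_iff_injective_and_card f).mpr ⟨hf, hcard⟩
  obtain ⟨e', he'⟩ := exact_lengths n (fun i => ((x i : ℕ) : ZMod (2 * n + 1)))
    (Equiv.ofBijective f hbij) (fun i => hmem i)
  let φ : Fin n ≃ ι := (finCongr hι.symm).trans (Fintype.equivFin ι).symm
  obtain ⟨g, hg, hgl⟩ := finish n (2 * n + 1) rfl (fun k => x (φ k)) (fun k => hx (φ k))
    (fun k => e' (Sum.inl (φ k, false))) (fun k => e' (Sum.inl (φ k, true))) (by
      intro r r' h
      have h1 : ∀ r : Fin n × Bool, (if r.2 then e' (Sum.inl (φ r.1, true))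
          else e' (Sum.inl (φ r.1, false))) = e' (Sum.inl (φ r.1, r.2)) := by
        rintro ⟨i, b⟩
        cases b <;> rfl
      have h2 := (h1 r).symm.trans (h.trans (h1 r'))
      have h3 := e'.injective h2
      simp only [Sum.inl.injEq, Prod.mk.injEq, EmbeddingLike.apply_eq_iff_eq] at h3
      exact Prod.ext h3.1 h3.2) (by
      intro k
      rcases he' (φ k) with h | h
      · left
        linear_combination h
      · right
        linear_combination -h)
  refine ⟨g, hg, hgl.trans ?_⟩
  have h4 : (Finset.univ : Finset ι).val = Multiset.map φ (Finset.univ : Finset (Fin n)).val := by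
    have h5 : (Finset.univ : Finset ι) = (Finset.univ : Finset (Fin n)).map φ.toEmbedding := by
      simp
    rw [h5]
    rfl
  rw [h4, Multiset.map_map]
  rfl

/-- The family version: a list of `m * n` lengths is the union of the length lists of `m` near
1-factors of `K_{2n+1}` iff for every divisor `d` of `2n+1` at most `m (2n+1-d)/2` of the lengths
are multiples of `d`. -/
theorem copies_of (hC : ∀ v : ℕ, Odd v → ∀ (C I : Type) [Fintype C] [Fintype I] [Nonempty C]
    (τ : I → ℕ), Hall (Fintype.card C) v τ → TReal C I v τ) :
    ∀ (m n : ℕ) (L : Multiset ℕ), Multiset.card L = m * n → (∀ x ∈ L, 1 ≤ x ∧ x ≤ n) →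
      ((∃ g : Fin m → Fin n ⊕ Fin n → Fin (2 * n + 1), (∀ c, Function.Injective (g c)) ∧
          ∑ c, Multiset.map
            (fun i : Fin n =>
              min (Int.natAbs (((g c (Sum.inl i) : ℕ) : ℤ) - ((g c (Sum.inr i) : ℕ) : ℤ)))
                (2 * n + 1 -
                  Int.natAbs (((g c (Sum.inl i) : ℕ) : ℤ) - ((g c (Sum.inr i) : ℕ) : ℤ))))
            (Finset.univ : Finset (Fin n)).val = L) ↔
        ∀ d ∈ Nat.divisors (2 * n + 1),
          2 * Multiset.card (Multiset.filter (fun x => d ∣ x) L) ≤ m * (2 * n + 1 - d)) := by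
  classical
  intro m n L hcard hL
  constructor
  · rintro ⟨g, hg, hgL⟩ d hd
    have h1 : Multiset.card (Multiset.filter (fun x => d ∣ x) L) =
        ∑ c : Fin m, (Finset.univ.filter fun i : Fin n => d ∣
          min (Int.natAbs (((g c (Sum.inl i) : ℕ) : ℤ) - ((g c (Sum.inr i) : ℕ) : ℤ)))
            (2 * n + 1 -
              Int.natAbs (((g c (Sum.inl i) : ℕ) : ℤ) - ((g c (Sum.inr i) : ℕ) : ℤ)))).card := by
      rw [← hgL, ← Multiset.countP_eq_card_filter]
      have h2 := map_sum (Multiset.countPAddMonoidHom (fun x : ℕ => d ∣ x)) (fun c : Fin m =>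
        Multiset.map
            (fun i : Fin n =>
              min (Int.natAbs (((g c (Sum.inl i) : ℕ) : ℤ) - ((g c (Sum.inr i) : ℕ) : ℤ)))
                (2 * n + 1 -
                  Int.natAbs (((g c (Sum.inl i) : ℕ) : ℤ) - ((g c (Sum.inr i) : ℕ) : ℤ))))
            (Finset.univ : Finset (Fin n)).val) Finset.univ
      simp only [Multiset.coe_countPAddMonoidHom] at h2
      rw [h2]
      apply Finset.sum_congr rfl
      intro c _
      rw [Multiset.countP_eq_card_filter, card_filter_map]
    rw [h1, Finset.mul_sum]
    calc _ ≤ ∑ c : Fin m, (2 * n + 1 - d) := by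
          apply Finset.sum_le_sum
          intro c _
          have h3 := necessary n d (Nat.dvd_of_mem_divisors hd) (g c) (hg c)
          omega
      _ = m * (2 * n + 1 - d) := by simp
  · intro h
    rcases Nat.eq_zero_or_pos m with rfl | hm
    · refine ⟨fun c => c.elim0, fun c => c.elim0, ?_⟩
      simp only [Finset.univ_eq_empty, Finset.sum_empty]
      rw [Nat.zero_mul] at hcard
      exact (Multiset.card_eq_zero.mp hcard).symm
    · obtain ⟨x, hl⟩ : ∃ x : Fin (m * n) → ℕ,
          Multiset.map x (Finset.univ : Finset (Fin (m * n))).val = L := by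
        have key : ∀ k : ℕ, Multiset.card L = k → ∃ x : Fin k → ℕ,
            Multiset.map x (Finset.univ : Finset (Fin k)).val = L := by
          intro k hk
          induction L using Quotient.inductionOn with
          | _ l =>
            have hlen : l.length = k := hk
            subst hlen
            refine ⟨l.get, ?_⟩
            rw [Fin.univ_val_map, List.ofFn_get]
            rfl
        exact key _ hcard
      have hx : ∀ i, 1 ≤ x i ∧ x i ≤ n := by
        intro i
        apply hL
        rw [← hl]
        exact Multiset.mem_map_of_mem x (Finset.mem_univ i)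
      have hne : Nonempty (Fin m) := ⟨⟨0, hm⟩⟩
      have hHall : Hall (Fintype.card (Fin m)) (2 * n + 1)
          (fun i : Fin (m * n) => Nat.gcd (x i) (2 * n + 1)) := by
        refine ⟨by simp; ring, fun i => Nat.gcd_dvd_right _ _, ?_⟩
        intro D hD
        have h1 := h D (Nat.mem_divisors.mpr ⟨hD, by omega⟩)
        rw [← hl, card_filter_map] at h1
        have h2 : (univ.filter fun i : Fin (m * n) => D ∣ Nat.gcd (x i) (2 * n + 1))
            = univ.filter fun i : Fin (m * n) => D ∣ x i := by
          apply Finset.filter_congr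
          intro i _
          rw [Nat.dvd_gcd_iff]
          exact ⟨fun h => h.1, fun h => ⟨h, hD⟩⟩
        rw [h2, Fintype.card_fin]
        exact h1
      obtain ⟨e, hinj, hhole, hpair⟩ := hC _ ⟨n, rfl⟩ (Fin m) (Fin (m * n)) _ hHall
      -- the pairs in the copy `c`
      let Ic : Fin m → Type := fun c => {i : Fin (m * n) // (e (Sum.inl (i, true))).1 = c}
      let fc : ∀ c, (Ic c × Bool) ⊕ Unit → ZMod (2 * n + 1) := fun c t =>
        (((e (t.elim (fun r => Sum.inl (r.1.1, r.2)) (fun _ => Sum.inr c))).2 : ℕ) :
          ZMod (2 * n + 1))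
      have hcopy : ∀ c (t : (Ic c × Bool) ⊕ Unit),
          (e (t.elim (fun r => Sum.inl (r.1.1, r.2)) (fun _ => Sum.inr c))).1 = c := by
        rintro c (⟨⟨i, hi⟩, b⟩ | u)
        · cases b
          · exact (hpair i).1.symm.trans hi
          · exact hi
        · exact hhole c
      have hfc : ∀ c, Function.Injective (fc c) := by
        intro c s t hst
        have h1 : (e (s.elim (fun r => Sum.inl (r.1.1, r.2)) (fun _ => Sum.inr c))).2 =
            (e (t.elim (fun r => Sum.inl (r.1.1, r.2)) (fun _ => Sum.inr c))).2 := by
          have h2 := (ZMod.natCast_eq_natCast_iff' _ _ _).mp hst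
          rw [Nat.mod_eq_of_lt (Fin.isLt _), Nat.mod_eq_of_lt (Fin.isLt _)] at h2
          exact Fin.ext h2
        have h3 := hinj (Prod.ext ((hcopy c s).trans (hcopy c t).symm) h1)
        rcases s with ⟨⟨i, hi⟩, b⟩ | u <;> rcases t with ⟨⟨j, hj⟩, b'⟩ | u'
        · simp only [Sum.elim_inl, Sum.inl.injEq, Prod.mk.injEq] at h3
          obtain ⟨h4, h5⟩ := h3
          subst h4 h5
          rfl
        · simp at h3
        · simp at h3
        · rfl
      -- each copy has exactly `n` pairs
      have hle : ∀ c, 2 * Fintype.card (Ic c) ≤ 2 * n := by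
        intro c
        have : NeZero (2 * n + 1) := ⟨by omega⟩
        have h1 := Fintype.card_le_of_injective (fc c) (hfc c)
        rw [ZMod.card] at h1
        simp only [Fintype.card_sum, Fintype.card_prod, Fintype.card_bool, Fintype.card_unit] at h1
        omega
      have hsum : ∑ c : Fin m, Fintype.card (Ic c) = m * n := by
        have h1 := Finset.card_eq_sum_card_fiberwise (s := (univ : Finset (Fin (m * n))))
          (t := (univ : Finset (Fin m))) (f := fun i => (e (Sum.inl (i, true))).1)
          (fun i _ => Finset.mem_coe.mpr (Finset.mem_univ _))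
        have h2 : (univ : Finset (Fin (m * n))).card = m * n := by simp
        refine Eq.trans ?_ (h1.symm.trans h2)
        apply Finset.sum_congr rfl
        intro c _
        exact Fintype.card_subtype _
      have hn : ∀ c, Fintype.card (Ic c) = n := by
        intro c
        by_contra hc
        have h1 : ∑ c : Fin m, Fintype.card (Ic c) < ∑ c : Fin m, n := by
          apply Finset.sum_lt_sum
          · intro c' _
            have := hle c'
            omega
          · refine ⟨c, Finset.mem_univ c, ?_⟩
            have := hle c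
            omega
        rw [hsum] at h1
        simp at h1
      have hone : ∀ c, ∃ g : Fin n ⊕ Fin n → Fin (2 * n + 1), Function.Injective g ∧
          Multiset.map
            (fun i : Fin n =>
              min (Int.natAbs (((g (Sum.inl i) : ℕ) : ℤ) - ((g (Sum.inr i) : ℕ) : ℤ)))
                (2 * n + 1 - Int.natAbs (((g (Sum.inl i) : ℕ) : ℤ) - ((g (Sum.inr i) : ℕ) : ℤ))))
            (Finset.univ : Finset (Fin n)).val =
            Multiset.map (fun i : Ic c => x i.1) (Finset.univ : Finset (Ic c)).val := by
        intro c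
        exact one_copy n (hn c) (fun i : Ic c => x i.1) (fc c) (hfc c) (by
          rintro ⟨i, hi⟩
          exact mem_zmultiples_of_modEq _ _ _ _ (hpair i).2) (fun i => hx i.1)
      choose g hg hgl using hone
      refine ⟨g, hg, ?_⟩
      rw [Finset.sum_congr rfl fun c _ => hgl c, ← hl]
      -- the union over the copies
      have h6 : ∀ c : Fin m, Multiset.map (fun i : Ic c => x i.1) (Finset.univ : Finset (Ic c)).val
          = ∑ i ∈ univ.filter (fun i : Fin (m * n) => (e (Sum.inl (i, true))).1 = c),
              ({x i} : Multiset ℕ) := by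
        intro c
        rw [← Multiset.sum_map_singleton (Multiset.map (fun i : Ic c => x i.1)
          (Finset.univ : Finset (Ic c)).val), Multiset.map_map]
        change ∑ i : Ic c, ({x i.1} : Multiset ℕ) = _
        exact (Finset.sum_subtype (univ.filter
          (fun i : Fin (m * n) => (e (Sum.inl (i, true))).1 = c)) (fun i => by simp)
          (fun i => ({x i} : Multiset ℕ))).symm
      rw [Finset.sum_congr rfl fun c _ => h6 c]
      rw [Finset.sum_fiberwise]
      rw [← Multiset.sum_map_singleton (Multiset.map x (Finset.univ : Finset (Fin (m * n))).val),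
        Multiset.map_map]
      rfl

end Pool.Agent.Helper13.NF
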