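import Pool.Agent.Helper13.NF.Cases

/-!
Counting keys.
-/

set_option autoImplicit false

open Finset

namespace Pool.Agent.Helper13.NF

/-- number of elements with key `q`. -/
def cnt {J : Type} [Fintype J] (b : J → ℕ) (q : ℕ) : ℕ := (univ.filter fun j => b j = q).card

lemma cnt_eq_sum {J : Type} [Fintype J] (b : J → ℕ) (q : ℕ) :
    cnt b q = ∑ j, if b j = q then 1 else 0 := by
  rw [cnt, Finset.card_filter]

lemma cnt_sum {J K : Type} [Fintype J] [Fintype K] (b : J → ℕ) (c : K → ℕ) (q : ℕ) :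
    cnt (Sum.elim b c) q = cnt b q + cnt c q := by
  rw [cnt_eq_sum, cnt_eq_sum, cnt_eq_sum, Fintype.sum_sum_type]
  rfl

lemma cnt_prod_bool {J : Type} [Fintype J] (b : J → ℕ) (q : ℕ) :
    cnt (fun x : J × Bool => b x.1) q = 2 * cnt b q := by
  rw [cnt_eq_sum, cnt_eq_sum, Fintype.sum_prod_type, Finset.mul_sum]
  apply Finset.sum_congr rfl
  intro j _
  rw [Fintype.sum_bool]
  ring

lemma cnt_const {J : Type} [Fintype J] (c q : ℕ) :
    cnt (fun _ : J => c) q = if c = q then Fintype.card J else 0 := by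
  rw [cnt_eq_sum]
  split_ifs with h
  · simp
  · simp

lemma cnt_update {J : Type} [Fintype J] [DecidableEq J] (b : J → ℕ) (x : J) (c q : ℕ) :
    cnt (fun j => if j = x then c else b j) q + (if b x = q then 1 else 0)
      = cnt b q + (if c = q then 1 else 0) := by
  rw [cnt_eq_sum, cnt_eq_sum]
  have hA := Finset.sum_erase_add univ (fun j => if (if j = x then c else b j) = q then 1 else 0)
    (Finset.mem_univ x)
  have hB := Finset.sum_erase_add univ (fun j => if b j = q then 1 else 0) (Finset.mem_univ x)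
  have h : ∑ j ∈ univ.erase x, (if (if j = x then c else b j) = q then 1 else 0)
      = ∑ j ∈ univ.erase x, (if b j = q then 1 else 0) := by
    apply Finset.sum_congr rfl
    intro j hj
    rw [if_neg (Finset.ne_of_mem_erase hj)]
  rw [h] at hA
  simp only [if_true] at hA hB
  rw [← hA, ← hB]
  ring

/-- index type with `f q` elements of key `q ∈ P`. -/
abbrev Idx (P : Finset ℕ) (f : ℕ → ℕ) : Type := (q : {x // x ∈ P}) × Fin (f q)

lemma idx_sum {M : Type*} [AddCommMonoid M] (P : Finset ℕ) (f : ℕ → ℕ) (g : ℕ → M) :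
    ∑ i : Idx P f, g i.1 = ∑ q ∈ P, f q • g q := by
  rw [Fintype.sum_sigma]
  simp only [Finset.sum_const, Finset.card_univ, Fintype.card_fin]
  exact Finset.sum_coe_sort P (fun q => f q • g q)

lemma cnt_idx (P : Finset ℕ) (f : ℕ → ℕ) (q : ℕ) :
    cnt (fun i : Idx P f => (i.1 : ℕ)) q = if q ∈ P then f q else 0 := by
  rw [cnt_eq_sum, idx_sum P f (fun x => if x = q then 1 else 0)]
  simp only [smul_eq_mul, mul_ite, mul_one, mul_zero]
  rw [Finset.sum_ite_eq' P q f]

lemma card_idx_filter (P : Finset ℕ) (f : ℕ → ℕ) (p : ℕ → Prop) [DecidablePred p] :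
    (univ.filter fun i : Idx P f => p i.1).card = ∑ q ∈ P.filter p, f q := by
  rw [Finset.card_filter, idx_sum P f (fun x => if p x then 1 else 0), Finset.sum_filter]
  simp only [smul_eq_mul, mul_ite, mul_one, mul_zero]

lemma card_idx (P : Finset ℕ) (f : ℕ → ℕ) : Fintype.card (Idx P f) = ∑ q ∈ P, f q := by
  rw [Fintype.card_sigma]
  simp only [Fintype.card_fin]
  exact Finset.sum_coe_sort P f

/-- the Hall condition for coatom types. -/
lemma hall_idx (P : Finset ℕ) (hP : ∀ q ∈ P, q.Prime) (m : ℕ) (f : ℕ → ℕ)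
    (h : ∀ S ⊆ P, m * ((∏ q ∈ S, q) - 1) ≤ 2 * ∑ q ∈ S, f q)
    (heq : 2 * ∑ q ∈ P, f q = m * ((∏ q ∈ P, q) - 1)) :
    Hall m (∏ q ∈ P, q) (fun i : Idx P f => (∏ q ∈ P, q) / (i.1 : ℕ)) := by
  set w := ∏ q ∈ P, q with hw
  have hw0 : 0 < w := Finset.prod_pos (fun q hq => (hP q hq).pos)
  have hdq : ∀ q ∈ P, q ∣ w := fun q hq => Finset.dvd_prod_of_mem _ hq
  have hsq : Squarefree w := by
    rw [hw]
    apply Finset.squarefree_prod_of_pairwise_isCoprime
    · intro a ha b hb hab
      exact Nat.coprime_iff_isRelPrime.mp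
        ((Nat.coprime_primes (hP a ha) (hP b hb)).mpr hab)
    · intro q hq
      exact (hP q hq).squarefree
  refine ⟨by rw [card_idx]; exact heq, ?_, ?_⟩
  · intro i
    exact Nat.div_dvd_of_dvd (hdq _ i.1.2)
  · intro D hD
    have h1 : (univ.filter fun i : Idx P f => D ∣ w / (i.1 : ℕ)).card
        ≤ (univ.filter fun i : Idx P f => ¬ (i.1 : ℕ) ∣ D).card := by
      apply Finset.card_le_card
      intro i hi
      rw [Finset.mem_filter] at hi ⊢
      refine ⟨Finset.mem_univ _, fun h2 => ?_⟩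
      have h3 := h2.trans hi.2
      have h4 : (i.1 : ℕ) * (i.1 : ℕ) ∣ w := by
        have h5 := Nat.mul_dvd_mul_left (i.1 : ℕ) h3
        rwa [Nat.mul_div_cancel' (hdq _ i.1.2)] at h5
      have h5 := hsq _ h4
      exact (hP _ i.1.2).one_lt.ne' (Nat.isUnit_iff.mp h5)
    rw [card_idx_filter P f (fun q => ¬ q ∣ D)] at h1
    have h2 : ∑ q ∈ P.filter (fun q => q ∣ D), f q + ∑ q ∈ P.filter (fun q => ¬ q ∣ D), f q
        = ∑ q ∈ P, f q := Finset.sum_filter_add_sum_filter_not _ _ _
    have h3 := h (P.filter (fun q => q ∣ D)) (Finset.filter_subset _ _)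
    have hD0 : 0 < D := Nat.pos_of_dvd_of_pos hD hw0
    have h4 : ∏ q ∈ P.filter (fun q => q ∣ D), q = D := by
      have h5 : P.filter (fun q => q ∣ D) = D.primeFactors := by
        ext q
        rw [Finset.mem_filter, Nat.mem_primeFactors]
        constructor
        · rintro ⟨h6, h7⟩
          exact ⟨hP q h6, h7, hD0.ne'⟩
        · rintro ⟨h6, h7, -⟩
          refine ⟨?_, h7⟩
          have h8 := h7.trans hD
          rw [hw, Prime.dvd_finsetProd_iff h6.prime] at h8
          obtain ⟨r, hr, hr'⟩ := h8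
          rwa [(Nat.prime_dvd_prime_iff_eq h6 (hP r hr)).mp hr']
      rw [h5]
      exact Nat.prod_primeFactors_of_squarefree (hsq.squarefree_of_dvd hD)
    rw [h4] at h3
    have h5 : m * (w - D) + m * (D - 1) = m * (w - 1) := by
      rw [← mul_add]
      congr 1
      have := Nat.le_of_dvd hw0 hD
      omega
    beta_reduce
    omega

end Pool.Agent.Helper13.NF
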