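import Mathlib

/-!
Near 1-factors of `K_v` with prescribed lengths (MP_6cccb1_co): definitions.

`TReal C I v τ`: the elements `i : I` (of type `τ i`) can be placed as pairwise disjoint pairs in
`C` copies of `Fin v` (so that exactly one point of each copy is left over, `hole c`), the two
points of the pair `i` being in the same copy and congruent modulo `τ i`.
-/

set_option autoImplicit false

open Finset

namespace Pool.Agent.Helper13.NF

/-- type-realisation in `C` copies of `Fin v`. -/
def TReal (C I : Type) (v : ℕ) (τ : I → ℕ) : Prop :=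
  ∃ e : (I × Bool) ⊕ C → C × Fin v, Function.Injective e ∧
    (∀ c, (e (Sum.inr c)).1 = c) ∧
    ∀ i, (e (Sum.inl (i, true))).1 = (e (Sum.inl (i, false))).1 ∧
      ((e (Sum.inl (i, true))).2 : ℕ) ≡ ((e (Sum.inl (i, false))).2 : ℕ) [MOD τ i]

/-- the divisor condition for `m` copies of `Fin v`. -/
def Hall (m v : ℕ) {I : Type} [Fintype I] (τ : I → ℕ) : Prop :=
  2 * Fintype.card I = m * (v - 1) ∧ (∀ i, τ i ∣ v) ∧
    ∀ D, D ∣ v → 2 * (univ.filter fun i => D ∣ τ i).card ≤ m * (v - D)

end Pool.Agent.Helper13.NF
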