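import Mathlib

/-!
Exchange lemma for near 1-factors in `ZMod (2n+1)` (reflection trick).
-/

set_option autoImplicit false

open Finset

namespace Pool.Agent.Helper13.NF

/-- two involutions, one with a unique fixed point: the orbit of that point contains a unique
fixed point of the other one. -/
lemma dihedral {V : Type*} [Finite V] (μ ρ : Equiv.Perm V) (hμ : μ * μ = 1) (hρ : ρ * ρ = 1)
    (f : V) (hf : ρ f = f) (huniq : ∀ x, ρ x = x → x = f) :
    ∃ P : Set V, (∀ x, x ∈ P ↔ ρ x ∈ P) ∧ (∀ x, x ∈ P ↔ μ x ∈ P) ∧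
      ∃ x ∈ P, μ x = x ∧ ∀ y ∈ P, μ y = y → y = x := by
  have hρi : ρ⁻¹ = ρ := inv_eq_of_mul_eq_one_left hρ
  have hμi : μ⁻¹ = μ := inv_eq_of_mul_eq_one_left hμ
  set σ : Equiv.Perm V := μ * ρ with hσ
  have hσi : ρ * σ * ρ⁻¹ = σ⁻¹ := by
    rw [hσ, mul_inv_rev, hμi, hρi, mul_assoc, mul_assoc, hρ, mul_one]
  have key : ∀ k : ℤ, ρ ((σ ^ k) f) = (σ ^ (-k)) f := by
    intro k
    have h1 : ρ * σ ^ k * ρ⁻¹ = σ ^ (-k) := by
      rw [← conj_zpow, hσi, inv_zpow, zpow_neg]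
    have h2 : (ρ * σ ^ k * ρ⁻¹) f = ρ ((σ ^ k) f) := by
      rw [hρi, Equiv.Perm.mul_apply, Equiv.Perm.mul_apply, hf]
    rw [← h2, h1]
  have key2 : ∀ k : ℤ, μ ((σ ^ k) f) = (σ ^ (1 - k)) f := by
    intro k
    have h1 : μ = σ * ρ := by rw [hσ, mul_assoc, hρ, mul_one]
    rw [h1, Equiv.Perm.mul_apply, key, ← Equiv.Perm.mul_apply, ← zpow_one_add, sub_eq_add_neg]
  have hinv : ∀ k : ℤ, (σ ^ (2 * k)) f = f → (σ ^ k) f = f := by
    intro k hk
    apply huniq
    rw [key]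
    have h1 : (σ ^ (-k)) ((σ ^ (2 * k)) f) = (σ ^ k) f := by
      rw [← Equiv.Perm.mul_apply, ← zpow_add]
      congr 2
      ring
    rw [hk] at h1
    exact h1
  refine ⟨{x | ∃ k : ℤ, (σ ^ k) f = x}, ?_, ?_, ?_⟩
  · have h1 : ∀ x, (∃ k : ℤ, (σ ^ k) f = x) → ∃ k : ℤ, (σ ^ k) f = ρ x := by
      rintro x ⟨k, rfl⟩
      exact ⟨-k, (key k).symm⟩
    intro x
    refine ⟨h1 x, fun h => ?_⟩
    have h2 := h1 _ h
    rwa [← Equiv.Perm.mul_apply, hρ] at h2
  · have h1 : ∀ x, (∃ k : ℤ, (σ ^ k) f = x) → ∃ k : ℤ, (σ ^ k) f = μ x := by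
      rintro x ⟨k, rfl⟩
      exact ⟨1 - k, (key2 k).symm⟩
    intro x
    refine ⟨h1 x, fun h => ?_⟩
    have h2 := h1 _ h
    rwa [← Equiv.Perm.mul_apply, hμ] at h2
  · have hex : ∃ T : ℕ, 0 < T ∧ (σ ^ (T : ℤ)) f = f := by
      refine ⟨orderOf σ, orderOf_pos σ, ?_⟩
      rw [zpow_natCast, pow_orderOf_eq_one]
      rfl
    classical
    have hT := Nat.find_spec hex
    have hmin := fun t => Nat.find_min (m := t) hex
    set T := Nat.find hex
    have hodd : T % 2 = 1 := by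
      rcases Nat.mod_two_eq_zero_or_one T with h | h
      · exfalso
        refine hmin (T / 2) (by omega) ⟨by omega, hinv _ ?_⟩
        have : (2 : ℤ) * ((T / 2 : ℕ) : ℤ) = (T : ℤ) := by omega
        rw [this]
        exact hT.2
      · exact h
    obtain ⟨k, hk⟩ : ∃ k : ℤ, (T : ℤ) = 2 * k - 1 := ⟨((T + 1) / 2 : ℕ), by omega⟩
    refine ⟨(σ ^ k) f, ⟨k, rfl⟩, ?_, ?_⟩
    · rw [key2]
      have h1 : (σ ^ (1 - k)) ((σ ^ (T : ℤ)) f) = (σ ^ k) f := by
        rw [← Equiv.Perm.mul_apply, ← zpow_add]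
        congr 2
        rw [hk]
        ring
      rw [hT.2] at h1
      exact h1
    · rintro y ⟨j, rfl⟩ hy
      rw [key2] at hy
      have h1 : (σ ^ (2 * j - 1)) f = f := by
        have h2 : (σ ^ (j - 1)) ((σ ^ (1 - j)) f) = (σ ^ (j - 1)) ((σ ^ j) f) := by rw [hy]
        rw [← Equiv.Perm.mul_apply, ← Equiv.Perm.mul_apply, ← zpow_add, ← zpow_add] at h2
        have h3 : j - 1 + (1 - j) = 0 := by ring
        rw [h3] at h2
        have h4 : j - 1 + j = 2 * j - 1 := by ring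
        rw [h4] at h2
        exact h2.symm
      have h2 : (σ ^ (2 * (j - k))) f = f := by
        have h3 : (σ ^ (2 * (j - k))) ((σ ^ (T : ℤ)) f) = f := by
          rw [← Equiv.Perm.mul_apply, ← zpow_add]
          have h4 : 2 * (j - k) + (T : ℤ) = 2 * j - 1 := by rw [hk]; ring
          rw [h4]
          exact h1
        rwa [hT.2] at h3
      have h3 := hinv _ h2
      have h4 : (σ ^ k) ((σ ^ (j - k)) f) = (σ ^ j) f := by
        rw [← Equiv.Perm.mul_apply, ← zpow_add]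
        congr 2
        ring
      rw [h3] at h4
      exact h4.symm

/-- one reflection step: a state is a bijection `e` from the slots `S` to `ZMod (2n+1)`; `s` is an
involution of the slots (partner), its fixed slots are free. -/
lemma reflect_step (n : ℕ) {S : Type*} [Finite S] (s : S → S) (hs : ∀ t, s (s t) = t)
    (e : S ≃ ZMod (2 * n + 1)) (K : ZMod (2 * n + 1)) :
    ∃ (e' : S ≃ ZMod (2 * n + 1)) (t0 : S), s t0 = t0 ∧ e' t0 = K - e t0 ∧
      (∀ t, s t = t → t ≠ t0 → e' t = e t) ∧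
      (∀ t, e' t - e' (s t) = e t - e (s t) ∨ e' t - e' (s t) = -(e t - e (s t))) := by
  classical
  have : NeZero (2 * n + 1) := ⟨by omega⟩
  set sp : Equiv.Perm S := ⟨s, s, hs, hs⟩ with hsp
  set μ : Equiv.Perm (ZMod (2 * n + 1)) := (e.symm.trans sp).trans e with hμd
  set ρ : Equiv.Perm (ZMod (2 * n + 1)) := Equiv.subLeft K with hρd
  have hμa : ∀ t, μ (e t) = e (s t) := by
    intro t
    simp [hμd, hsp]
  have hρa : ∀ x, ρ x = K - x := fun x => rfl
  have hμ : μ * μ = 1 := by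
    ext x
    obtain ⟨t, rfl⟩ := e.surjective x
    rw [Equiv.Perm.mul_apply, hμa, hμa, hs]
    rfl
  have hρ : ρ * ρ = 1 := by
    ext x
    rw [Equiv.Perm.mul_apply, hρa, hρa, sub_sub_cancel]
    rfl
  have h2 : (2 : ZMod (2 * n + 1)) * ((n : ZMod (2 * n + 1)) + 1) = 1 := by
    have h := ZMod.natCast_self (2 * n + 1)
    push_cast at h
    linear_combination h
  obtain ⟨P, hP1, hP2, x, hx, hxf, hxu⟩ := dihedral μ ρ hμ hρ (((n : ZMod (2 * n + 1)) + 1) * K)
    (by rw [hρa]; linear_combination (-K) * h2) (by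
      intro x hx
      rw [hρa] at hx
      linear_combination (-x) * h2 - ((n : ZMod (2 * n + 1)) + 1) * hx)
  obtain ⟨t0, rfl⟩ := e.surjective x
  -- reflection on `P`
  set θ : ZMod (2 * n + 1) → ZMod (2 * n + 1) := fun y => if y ∈ P then K - y else y with hθ
  have hθθ : ∀ y, θ (θ y) = y := by
    intro y
    simp only [hθ]
    by_cases hy : y ∈ P
    · have h3 : K - y ∈ P := (hP1 y).mp hy
      rw [if_pos hy, if_pos h3, sub_sub_cancel]
    · rw [if_neg hy, if_neg hy]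
  set θe : Equiv.Perm (ZMod (2 * n + 1)) := ⟨θ, θ, hθθ, hθθ⟩ with hθe
  refine ⟨e.trans θe, t0, ?_, ?_, ?_, ?_⟩
  · rw [hμa] at hxf
    exact e.injective hxf
  · change θ (e t0) = _
    simp only [hθ]
    rw [if_pos hx]
  · intro t ht hne
    change θ (e t) = _
    simp only [hθ]
    rw [if_neg]
    intro hin
    apply hne
    exact e.injective (hxu _ hin (by rw [hμa, ht]))
  · intro t
    change θ (e t) - θ (e (s t)) = _ ∨ θ (e t) - θ (e (s t)) = _
    simp only [hθ]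
    have h3 : e t ∈ P ↔ e (s t) ∈ P := by rw [hP2 (e t), hμa]
    by_cases h4 : e t ∈ P
    · right
      rw [if_pos h4, if_pos (h3.mp h4)]
      ring
    · left
      rw [if_neg h4, if_neg (fun h => h4 (h3.mpr h))]

end Pool.Agent.Helper13.NF
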