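import Pool.Agent.Helper13.NF.Exchange

/-!
Exchange lemma: in a near 1-factor of `ZMod (2n+1)` one length `ℓ` may be replaced by any `d'` with
`ℓ ∈ ⟨d'⟩`.
-/

set_option autoImplicit false

open Finset

namespace Pool.Agent.Helper13.NF

/-- the differences of the pairs different from `i0` are the prescribed ones. -/
def Good {ι : Type} (n : ℕ) (d : ι → ZMod (2 * n + 1)) (i0 : ι)
    (e : (ι × Bool) ⊕ Unit ≃ ZMod (2 * n + 1)) : Prop :=
  ∀ i, i ≠ i0 → (e (Sum.inl (i, true)) - e (Sum.inl (i, false)) = d i ∨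
    e (Sum.inl (i, true)) - e (Sum.inl (i, false)) = -d i)

/-- partner map, the pair `i0` is removed. -/
def prt {ι : Type} [DecidableEq ι] (i0 : ι) : (ι × Bool) ⊕ Unit → (ι × Bool) ⊕ Unit
  | Sum.inl (i, b) => if i = i0 then Sum.inl (i, b) else Sum.inl (i, !b)
  | Sum.inr u => Sum.inr u

lemma prt_prt {ι : Type} [DecidableEq ι] (i0 : ι) (t : (ι × Bool) ⊕ Unit) :
    prt i0 (prt i0 t) = t := by
  rcases t with ⟨i, b⟩ | u
  · by_cases h : i = i0
    · simp [prt, h]
    · simp [prt, h]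
  · rfl

lemma prt_fix {ι : Type} [DecidableEq ι] (i0 : ι) (t : (ι × Bool) ⊕ Unit) (h : prt i0 t = t) :
    t = Sum.inl (i0, true) ∨ t = Sum.inr () ∨ t = Sum.inl (i0, false) := by
  rcases t with ⟨i, b⟩ | u
  · by_cases hi : i = i0
    · subst hi
      cases b
      · right; right; rfl
      · left; rfl
    · exfalso
      simp [prt, hi] at h
  · right; left; rfl

lemma walk_step {ι : Type} [Finite ι] [DecidableEq ι] (n : ℕ) (d : ι → ZMod (2 * n + 1)) (i0 : ι)
    (d' δ : ZMod (2 * n + 1)) (hδ : δ = d' ∨ δ = -d') (a b c : ZMod (2 * n + 1))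
    (e : (ι × Bool) ⊕ Unit ≃ ZMod (2 * n + 1)) (he : Good n d i0 e)
    (ha : e (Sum.inl (i0, true)) = a) (hb : e (Sum.inr ()) = b) (hc : e (Sum.inl (i0, false)) = c) :
    (∃ e' : (ι × Bool) ⊕ Unit ≃ ZMod (2 * n + 1), Good n d i0 e' ∧
      (e' (Sum.inl (i0, true)) - e' (Sum.inl (i0, false)) = d' ∨
        e' (Sum.inl (i0, true)) - e' (Sum.inl (i0, false)) = -d')) ∨
    (∃ e' : (ι × Bool) ⊕ Unit ≃ ZMod (2 * n + 1), Good n d i0 e' ∧
      e' (Sum.inl (i0, true)) = a ∧ e' (Sum.inr ()) = b ∧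
      e' (Sum.inl (i0, false)) = a + b + δ - c) := by
  obtain ⟨e', t0, ht0, he0, hother, hdiff⟩ := reflect_step n (prt i0) (prt_prt i0) e (a + b + δ)
  have hA : prt i0 (Sum.inl (i0, true)) = Sum.inl (i0, true) := by simp [prt]
  have hC : prt i0 (Sum.inl (i0, false)) = Sum.inl (i0, false) := by simp [prt]
  have hB : prt i0 (Sum.inr ()) = Sum.inr () := rfl
  have hgood : Good n d i0 e' := by
    intro i hi
    have h1 := hdiff (Sum.inl (i, true))
    have h2 : prt i0 (Sum.inl (i, true)) = Sum.inl (i, false) := by simp [prt, hi]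
    rw [h2] at h1
    rcases h1 with h1 | h1 <;> rcases he i hi with h3 | h3
    · left; rw [h1, h3]
    · right; rw [h1, h3]
    · right; rw [h1, h3]
    · left; rw [h1, h3, neg_neg]
  -- the pair (A, B) may be taken as the new pair
  have hfin : (e' (Sum.inl (i0, true)) - e' (Sum.inr ()) = d' ∨
      e' (Sum.inl (i0, true)) - e' (Sum.inr ()) = -d') →
      ∃ e' : (ι × Bool) ⊕ Unit ≃ ZMod (2 * n + 1), Good n d i0 e' ∧
      (e' (Sum.inl (i0, true)) - e' (Sum.inl (i0, false)) = d' ∨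
        e' (Sum.inl (i0, true)) - e' (Sum.inl (i0, false)) = -d') := by
    intro h
    refine ⟨(Equiv.swap (Sum.inr ()) (Sum.inl (i0, false))).trans e', ?_, ?_⟩
    · intro i hi
      have h1 : ∀ b : Bool, ((Equiv.swap (Sum.inr ()) (Sum.inl (i0, false))).trans e')
          (Sum.inl (i, b)) = e' (Sum.inl (i, b)) := by
        intro b
        rw [Equiv.trans_apply, Equiv.swap_apply_of_ne_of_ne (by simp)
          (by intro h; simp only [Sum.inl.injEq, Prod.mk.injEq] at h; exact hi h.1)]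
      rw [h1, h1]
      exact hgood i hi
    · have h1 : ((Equiv.swap (Sum.inr ()) (Sum.inl (i0, false))).trans e')
          (Sum.inl (i0, true)) = e' (Sum.inl (i0, true)) := by
        rw [Equiv.trans_apply, Equiv.swap_apply_of_ne_of_ne (by simp) (by simp)]
      have h2 : ((Equiv.swap (Sum.inr ()) (Sum.inl (i0, false))).trans e')
          (Sum.inl (i0, false)) = e' (Sum.inr ()) := by
        rw [Equiv.trans_apply, Equiv.swap_apply_right]
      rw [h1, h2]
      exact h
  rcases prt_fix i0 t0 ht0 with h | h | h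
  · subst h
    left
    apply hfin
    have h1 := hother _ hB (by simp)
    rw [he0, h1, ha, hb]
    rcases hδ with h2 | h2
    · left; rw [h2]; ring
    · right; rw [h2]; ring
  · subst h
    left
    apply hfin
    have h1 := hother _ hA (by simp)
    rw [he0, h1, ha, hb]
    rcases hδ with h2 | h2
    · right; rw [h2]; ring
    · left; rw [h2]; ring
  · subst h
    right
    refine ⟨e', hgood, ?_, ?_, ?_⟩
    · rw [hother _ hA (by simp), ha]
    · rw [hother _ hB (by simp), hb]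
    · rw [he0, hc]

lemma walk {ι : Type} [Finite ι] [DecidableEq ι] (n : ℕ) (d : ι → ZMod (2 * n + 1)) (i0 : ι)
    (d' : ZMod (2 * n + 1)) (a b c : ZMod (2 * n + 1))
    (e : (ι × Bool) ⊕ Unit ≃ ZMod (2 * n + 1)) (he : Good n d i0 e)
    (ha : e (Sum.inl (i0, true)) = a) (hb : e (Sum.inr ()) = b) (hc : e (Sum.inl (i0, false)) = c)
    (t : ℕ) :
    (∃ e' : (ι × Bool) ⊕ Unit ≃ ZMod (2 * n + 1), Good n d i0 e' ∧
      (e' (Sum.inl (i0, true)) - e' (Sum.inl (i0, false)) = d' ∨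
        e' (Sum.inl (i0, true)) - e' (Sum.inl (i0, false)) = -d')) ∨
    (∃ e' : (ι × Bool) ⊕ Unit ≃ ZMod (2 * n + 1), Good n d i0 e' ∧
      e' (Sum.inl (i0, true)) = a ∧ e' (Sum.inr ()) = b ∧
      e' (Sum.inl (i0, false)) = c - 2 * (t : ZMod (2 * n + 1)) * d') := by
  induction t with
  | zero => exact Or.inr ⟨e, he, ha, hb, by rw [hc]; simp⟩
  | succ t ih =>
    rcases ih with h | ⟨e1, he1, ha1, hb1, hc1⟩
    · exact Or.inl h
    · rcases walk_step n d i0 d' d' (Or.inl rfl) a b _ e1 he1 ha1 hb1 hc1 with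
        h | ⟨e2, he2, ha2, hb2, hc2⟩
      · exact Or.inl h
      · rcases walk_step n d i0 d' (-d') (Or.inr rfl) a b _ e2 he2 ha2 hb2 hc2 with
          h | ⟨e3, he3, ha3, hb3, hc3⟩
        · exact Or.inl h
        · refine Or.inr ⟨e3, he3, ha3, hb3, ?_⟩
          rw [hc3]
          push_cast
          ring

/-- exchange lemma, equivalence form. -/
theorem exchange_equiv {ι : Type} [Finite ι] [DecidableEq ι] (n : ℕ) (d : ι → ZMod (2 * n + 1))
    (i0 : ι) (d' : ZMod (2 * n + 1)) (e : (ι × Bool) ⊕ Unit ≃ ZMod (2 * n + 1))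
    (he : Good n d i0 e)
    (hmem : e (Sum.inl (i0, true)) - e (Sum.inl (i0, false)) ∈ AddSubgroup.zmultiples d') :
    ∃ e' : (ι × Bool) ⊕ Unit ≃ ZMod (2 * n + 1), Good n d i0 e' ∧
      (e' (Sum.inl (i0, true)) - e' (Sum.inl (i0, false)) = d' ∨
        e' (Sum.inl (i0, true)) - e' (Sum.inl (i0, false)) = -d') := by
  have : NeZero (2 * n + 1) := ⟨by omega⟩
  obtain ⟨k, hk⟩ := AddSubgroup.mem_zmultiples_iff.mp hmem
  have h2 : (2 : ZMod (2 * n + 1)) * ((n : ZMod (2 * n + 1)) + 1) = 1 := by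
    have h := ZMod.natCast_self (2 * n + 1)
    push_cast at h
    linear_combination h
  -- `t` with `2 t d' = c - a`
  set t : ℕ := (((n : ZMod (2 * n + 1)) + 1) * (-(k : ZMod (2 * n + 1)))).val with ht
  have ht' : (t : ZMod (2 * n + 1)) = ((n : ZMod (2 * n + 1)) + 1) * (-(k : ZMod (2 * n + 1))) := by
    rw [ht, ZMod.natCast_zmod_val]
  rcases walk n d i0 d' _ _ _ e he rfl rfl rfl t with h | ⟨e1, -, ha1, -, hc1⟩
  · exact h
  · exfalso
    have h3 : e1 (Sum.inl (i0, true)) = e1 (Sum.inl (i0, false)) := by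
      rw [ha1, hc1, ht']
      rw [zsmul_eq_mul] at hk
      linear_combination (-1 : ZMod (2 * n + 1)) * hk + (-(k : ZMod (2 * n + 1)) * d') * h2
    have h4 := e1.injective h3
    simp at h4

end Pool.Agent.Helper13.NF
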