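import Pool.Agent.Helper13.NF.Iter
import Pool.Agent.Helper13.NF.Iface

/-!
The statement from the type-realisation theorem.
-/

set_option autoImplicit false

open Finset

namespace Pool.Agent.Helper13.NF

/-- sufficiency, for lists of the form `Multiset.map x univ`. -/
theorem sufficient_of (n : ℕ) (x : Fin n → ℕ) (hx : ∀ i, 1 ≤ x i ∧ x i ≤ n)
    (H : TReal Unit (Fin n) (2 * n + 1) (fun i => Nat.gcd (x i) (2 * n + 1))) :
    ∃ g : Fin n ⊕ Fin n → Fin (2 * n + 1), Function.Injective g ∧
      Multiset.map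
        (fun i : Fin n =>
          min (Int.natAbs (((g (Sum.inl i) : ℕ) : ℤ) - ((g (Sum.inr i) : ℕ) : ℤ)))
            (2 * n + 1 - Int.natAbs (((g (Sum.inl i) : ℕ) : ℤ) - ((g (Sum.inr i) : ℕ) : ℤ))))
        (Finset.univ : Finset (Fin n)).val = Multiset.map x (Finset.univ : Finset (Fin n)).val := by
  obtain ⟨X, Y, hinj, hd⟩ := lengths_of_TReal n x H
  exact finish n (2 * n + 1) rfl x hx X Y hinj hd

/-- the divisor condition of the problem is the Hall condition for the types. -/
lemma hall_of (n : ℕ) (x : Fin n → ℕ)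
    (h : ∀ d ∈ Nat.divisors (2 * n + 1),
      Multiset.card (Multiset.filter (fun y => d ∣ y)
        (Multiset.map x (Finset.univ : Finset (Fin n)).val)) ≤ (2 * n + 1 - d) / 2) :
    Hall (Fintype.card Unit) (2 * n + 1) (fun i => Nat.gcd (x i) (2 * n + 1)) := by
  refine ⟨by simp, fun i => Nat.gcd_dvd_right _ _, ?_⟩
  intro D hD
  have h1 := h D (Nat.mem_divisors.mpr ⟨hD, by omega⟩)
  rw [card_filter_map] at h1
  have h2 : (univ.filter fun i : Fin n => D ∣ Nat.gcd (x i) (2 * n + 1))
      = univ.filter fun i : Fin n => D ∣ x i := by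
    apply Finset.filter_congr
    intro i _
    rw [Nat.dvd_gcd_iff]
    exact ⟨fun h => h.1, fun h => ⟨h, hD⟩⟩
  rw [h2]
  simp only [Fintype.card_unique, one_mul]
  omega

/-- the full statement from the main theorem on types. -/
theorem statement_of (hC : ∀ v : ℕ, Odd v → ∀ (C I : Type) [Fintype C] [Fintype I] [Nonempty C]
    (τ : I → ℕ), Hall (Fintype.card C) v τ → TReal C I v τ) :
    ∀ (n : ℕ) (L : Multiset ℕ), Multiset.card L = n → (∀ x ∈ L, 1 ≤ x ∧ x ≤ n) →
      ((∃ g : Fin n ⊕ Fin n → Fin (2 * n + 1), Function.Injective g ∧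
          Multiset.map
            (fun i : Fin n =>
              min (Int.natAbs (((g (Sum.inl i) : ℕ) : ℤ) - ((g (Sum.inr i) : ℕ) : ℤ)))
                (2 * n + 1 - Int.natAbs (((g (Sum.inl i) : ℕ) : ℤ) - ((g (Sum.inr i) : ℕ) : ℤ))))
            (Finset.univ : Finset (Fin n)).val = L) ↔
        ∀ d ∈ Nat.divisors (2 * n + 1),
          Multiset.card (Multiset.filter (fun x => d ∣ x) L) ≤ (2 * n + 1 - d) / 2) := by
  intro n L hcard hL
  constructor
  · rintro ⟨g, hg, hgL⟩ d hd
    rw [← hgL, card_filter_map]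
    exact necessary n d (Nat.dvd_of_mem_divisors hd) g hg
  · intro h
    obtain ⟨x, hl⟩ : ∃ x : Fin n → ℕ,
        Multiset.map x (Finset.univ : Finset (Fin n)).val = L := by
      induction L using Quotient.inductionOn with
      | _ l =>
        have hlen : l.length = n := hcard
        subst hlen
        refine ⟨l.get, ?_⟩
        rw [Fin.univ_val_map, List.ofFn_get]
        rfl
    have he : ∀ i, 1 ≤ x i ∧ x i ≤ n := by
      intro i
      apply hL
      rw [← hl]
      exact Multiset.mem_map_of_mem x (Finset.mem_univ i)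
    rw [← hl] at h ⊢
    exact sufficient_of n x he (hC _ ⟨n, rfl⟩ Unit (Fin n) _ (hall_of n x h))

end Pool.Agent.Helper13.NF
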