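import Pool.Agent.Helper13.NF.Exchange2
import Pool.Agent.Helper13.NF.Defs

/-!
From a realisation of the types (subgroups) to a realisation of the exact lengths.
-/

set_option autoImplicit false

open Finset

namespace Pool.Agent.Helper13.NF

/-- all the differences may be made exact. -/
theorem exact_lengths {ι : Type} [Fintype ι] [DecidableEq ι] (n : ℕ) (d : ι → ZMod (2 * n + 1))
    (e : (ι × Bool) ⊕ Unit ≃ ZMod (2 * n + 1))
    (h : ∀ i, e (Sum.inl (i, true)) - e (Sum.inl (i, false)) ∈ AddSubgroup.zmultiples (d i)) :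
    ∃ e' : (ι × Bool) ⊕ Unit ≃ ZMod (2 * n + 1), ∀ i,
      (e' (Sum.inl (i, true)) - e' (Sum.inl (i, false)) = d i ∨
        e' (Sum.inl (i, true)) - e' (Sum.inl (i, false)) = -d i) := by
  have main : ∀ s : Finset ι, ∃ e' : (ι × Bool) ⊕ Unit ≃ ZMod (2 * n + 1),
      (∀ i ∈ s, (e' (Sum.inl (i, true)) - e' (Sum.inl (i, false)) = d i ∨
        e' (Sum.inl (i, true)) - e' (Sum.inl (i, false)) = -d i)) ∧
      ∀ i ∉ s, e' (Sum.inl (i, true)) - e' (Sum.inl (i, false)) ∈ AddSubgroup.zmultiples (d i) := by
    intro s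
    induction s using Finset.induction_on with
    | empty => exact ⟨e, by simp, fun i _ => h i⟩
    | insert i0 s hi0 ih =>
      obtain ⟨e1, h1, h2⟩ := ih
      obtain ⟨e2, h3, h4⟩ := exchange_equiv n
        (fun i => e1 (Sum.inl (i, true)) - e1 (Sum.inl (i, false))) i0 (d i0) e1
        (fun i _ => Or.inl rfl) (h2 i0 hi0)
      refine ⟨e2, ?_, ?_⟩
      · intro i hi
        by_cases hii : i = i0
        · subst hii
          exact h4
        · have h5 := h1 i (Finset.mem_of_mem_insert_of_ne hi hii)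
          rcases h3 i hii with h6 | h6 <;> rcases h5 with h7 | h7 <;> simp only [h7] at h6
          · left; exact h6
          · right; exact h6
          · right; exact h6
          · left; rw [h6, neg_neg]
      · intro i hi
        rw [Finset.mem_insert, not_or] at hi
        have h5 := h2 i hi.2
        rcases h3 i hi.1 with h6 | h6
        · rw [h6]
          exact h5
        · rw [h6]
          exact neg_mem h5
  obtain ⟨e', h1, -⟩ := main Finset.univ
  exact ⟨e', fun i => h1 i (Finset.mem_univ i)⟩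

/-- congruence modulo `gcd (x, N)` gives membership in the subgroup generated by `x`. -/
lemma mem_zmultiples_of_modEq (N x a b : ℕ) (h : a ≡ b [MOD Nat.gcd x N]) :
    ((a : ZMod N) - (b : ZMod N)) ∈ AddSubgroup.zmultiples ((x : ℕ) : ZMod N) := by
  have h1 : ((Nat.gcd x N : ℕ) : ℤ) ∣ (a : ℤ) - b := by
    have := (Nat.modEq_iff_dvd.mp h.symm)
    exact this
  obtain ⟨q, hq⟩ := h1
  have h2 := Nat.gcd_eq_gcd_ab x N
  rw [AddSubgroup.mem_zmultiples_iff]
  refine ⟨q * Nat.gcdA x N, ?_⟩
  have h3 : ((a : ZMod N) - (b : ZMod N)) = (((a : ℤ) - b : ℤ) : ZMod N) := by push_cast; ring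
  rw [h3, hq, h2, zsmul_eq_mul]
  push_cast
  rw [ZMod.natCast_self]
  ring

/-- from `TReal` to exact lengths. -/
theorem lengths_of_TReal (n : ℕ) (x : Fin n → ℕ)
    (H : TReal Unit (Fin n) (2 * n + 1) (fun i => Nat.gcd (x i) (2 * n + 1))) :
    ∃ X Y : Fin n → ZMod (2 * n + 1),
      Function.Injective (fun r : Fin n × Bool => if r.2 then Y r.1 else X r.1) ∧
      ∀ i, Y i = X i + x i ∨ X i = Y i + x i := by
  classical
  have : NeZero (2 * n + 1) := ⟨by omega⟩
  obtain ⟨e, hinj, -, hcong⟩ := H
  set f : (Fin n × Bool) ⊕ Unit → ZMod (2 * n + 1) := fun t => (((e t).2 : ℕ) : ZMod (2 * n + 1))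
    with hf
  have hfinj : Function.Injective f := by
    intro s t hst
    apply hinj
    have h1 : ((e s).2 : ℕ) = ((e t).2 : ℕ) := by
      have h2 := (ZMod.natCast_eq_natCast_iff' _ _ _).mp hst
      rwa [Nat.mod_eq_of_lt (e s).2.isLt, Nat.mod_eq_of_lt (e t).2.isLt] at h2
    exact Prod.ext (Subsingleton.elim _ _) (Fin.ext h1)
  have hcard : Fintype.card ((Fin n × Bool) ⊕ Unit) = Fintype.card (ZMod (2 * n + 1)) := by
    rw [ZMod.card]
    simp
    ring
  have hbij : Function.Bijective f := (Fintype.bijective_iff_injective_and_card f).mpr ⟨hfinj, hcard⟩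
  obtain ⟨e', he'⟩ := exact_lengths n (fun i => ((x i : ℕ) : ZMod (2 * n + 1)))
    (Equiv.ofBijective f hbij) (by
      intro i
      exact mem_zmultiples_of_modEq _ _ _ _ (hcong i).2)
  refine ⟨fun i => e' (Sum.inl (i, false)), fun i => e' (Sum.inl (i, true)), ?_, ?_⟩
  · intro r r' h
    have h1 : ∀ r : Fin n × Bool, (if r.2 then e' (Sum.inl (r.1, true)) else e' (Sum.inl (r.1, false)))
        = e' (Sum.inl r) := by
      rintro ⟨i, b⟩
      cases b <;> rfl
    have h2 := (h1 r).symm.trans (h.trans (h1 r'))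
    have h3 := e'.injective h2
    simpa using h3
  · intro i
    rcases he' i with h | h
    · left
      simp only
      linear_combination h
    · right
      simp only
      linear_combination -h

end Pool.Agent.Helper13.NF
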