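import Pool.Agent.Helper13.NF.Coatom

/-!
The main induction.
-/

set_option autoImplicit false

open Finset

namespace Pool.Agent.Helper13.NF

theorem main_C_of (hsplit : SplitStmt) (hL : LevelsStmt) (hS : SwitchStmt) (hR : RoundingStmt)
    (hPe : PeelStmt) (v : ℕ) (hv : Odd v) : ∀ (C I : Type) [Fintype C] [Fintype I] [Nonempty C]
    (τ : I → ℕ), Hall (Fintype.card C) v τ → TReal C I v τ := by
  induction v using Nat.strong_induction_on with
  | _ v ih =>
    have IH : Below v := fun w hw hwo => ih w hw hwo
    intro C I _ _ _
    classical
    have key : ∀ N : ℕ, ∀ τ : I → ℕ, ∑ i, (v - τ i) = N → Hall (Fintype.card C) v τ →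
        TReal C I v τ := by
      intro N
      induction N using Nat.strong_induction_on with
      | _ N ihN =>
        intro τ hN H
        by_cases ht : ∃ D, D ∣ v ∧ 1 < D ∧ D < v ∧
            2 * (univ.filter fun i => D ∣ τ i).card = Fintype.card C * (v - D)
        · obtain ⟨D, hD, h1, h2, h3⟩ := ht
          exact tight_case hsplit v hv IH C I τ H D hD h1 h2 h3
        · by_cases hr : ∃ i0 p, p.Prime ∧ p * τ i0 ∣ v ∧ p * τ i0 ≠ v
          · obtain ⟨i0, p, hp, hpv, hne⟩ := hr
            have hτ0 : 0 < τ i0 := Nat.pos_of_dvd_of_pos (H.2.1 i0) hv.pos
            have hle : p * τ i0 ≤ v := Nat.le_of_dvd hv.pos hpv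
            have hlt : τ i0 < p * τ i0 := by
              have := hp.two_le
              nlinarith
            have H' := hall_raise v hv (Fintype.card C) I τ H (by
              intro D hD h1 h2 h3
              exact ht ⟨D, hD, h1, h2, h3⟩) i0 p hpv hne
            have hsum : ∑ i, (v - Function.update τ i0 (p * τ i0) i) < N := by
              rw [← hN]
              apply Finset.sum_lt_sum
              · intro i _
                by_cases h : i = i0
                · subst h
                  rw [Function.update_self]
                  omega
                · rw [Function.update_of_ne h]
              · refine ⟨i0, Finset.mem_univ _, ?_⟩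
                rw [Function.update_self]
                omega
            refine (ihN _ hsum _ rfl H').mono ?_
            intro i
            by_cases h : i = i0
            · subst h
              rw [Function.update_self]
              exact dvd_mul_left _ _
            · rw [Function.update_of_ne h]
          · rcases Nat.lt_or_ge 1 v with hv1 | hv1
            · apply coatom_case hL hS hR hPe v hv IH C I τ H hv1
              intro i p hp hpv
              by_contra hne
              exact hr ⟨i, p, hp, hpv, hne⟩
            · have hv2 : v = 1 := by
                have := hv.pos
                omega
              subst hv2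
              have hc := H.1
              rw [Nat.sub_self, mul_zero] at hc
              have hI : IsEmpty I := by
                rw [← Fintype.card_eq_zero_iff]
                omega
              exact TReal.trivial_types 0 τ (fun i => (hI.false i).elim) (by omega)
    intro τ H
    exact key _ τ rfl H

end Pool.Agent.Helper13.NF
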