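import Mathlib

/-!
Numeric lemma: parity rounding along the sorted order.
-/

set_option autoImplicit false

open Finset

namespace Pool.Agent.Helper13.NF.Rd

/-- rounding of `d / κ` to the parity of `d`. -/
def R (κ d : ℤ) : ℤ := d / κ + (d / κ - d) % 2

lemma R_par (κ d : ℤ) : 2 ∣ (d - R κ d) := by
  unfold R
  omega

lemma R_nonneg (κ d : ℤ) (hκ : 3 ≤ κ) (hd : 0 ≤ d) : 0 ≤ R κ d := by
  unfold R
  have h1 : 0 ≤ d / κ := Int.ediv_nonneg hd (by omega)
  omega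

lemma R_le (κ d : ℤ) (hκ : 3 ≤ κ) (hd : 0 ≤ d) : R κ d ≤ d := by
  unfold R
  have h1 : 0 ≤ d / κ := Int.ediv_nonneg hd (by omega)
  have h2 : κ * (d / κ) ≤ d := Int.mul_ediv_self_le (by omega)
  have h3 : 3 * (d / κ) ≤ κ * (d / κ) := mul_le_mul_of_nonneg_right hκ h1
  omega

lemma R_bounds (κ d : ℤ) (hκ : 3 ≤ κ) : -κ ≤ κ * R κ d - d ∧ κ * R κ d - d ≤ κ := by
  unfold R
  have h1 := Int.emod_add_mul_ediv d κ
  have h2 := Int.emod_nonneg d (show κ ≠ 0 by omega)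
  have h3 := Int.emod_lt_of_pos d (show 0 < κ by omega)
  rcases Int.emod_two_eq_zero_or_one (d / κ - d) with h4 | h4
  · rw [h4]
    constructor <;> nlinarith
  · rw [h4]
    constructor <;> nlinarith

/-- a product of distinct odd primes is large. -/
lemma prod_ge (S : Finset ℕ) (hS : ∀ q ∈ S, q.Prime ∧ q ≠ 2) :
    S.Nonempty → 3 * 5 ^ (S.card - 1) ≤ ∏ q ∈ S, q := by
  induction S using Finset.induction_on_max with
  | empty => intro h; exact absurd h (by simp)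
  | insert a S ha ih =>
    intro _
    have hS' : ∀ q ∈ S, q.Prime ∧ q ≠ 2 := fun q hq => hS q (Finset.mem_insert_of_mem hq)
    have haS : a ∉ S := fun h => lt_irrefl _ (ha a h)
    have ha1 := hS a (Finset.mem_insert_self a S)
    have ha3 : 3 ≤ a := by
      have := ha1.1.two_le
      have := ha1.2
      omega
    rw [Finset.prod_insert haS, Finset.card_insert_of_notMem haS]
    rcases S.eq_empty_or_nonempty with h | h
    · subst h
      simp
      exact ha3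
    · have h1 := ih hS' h
      obtain ⟨r, hr⟩ := h
      have h2 := ha r hr
      have hr3 : 3 ≤ r := by
        have := (hS' r hr).1.two_le
        have := (hS' r hr).2
        omega
      have ha5 : 5 ≤ a := by
        rcases Nat.lt_or_ge a 5 with h3 | h3
        · exfalso
          have h4 : a = 4 := by omega
          rw [h4] at ha1
          exact absurd ha1.1 (by norm_num)
        · exact h3
      have h3 : 0 < S.card := Finset.card_pos.mpr ⟨r, hr⟩
      obtain ⟨k, hk⟩ : ∃ k, S.card = k + 1 := ⟨S.card - 1, by omega⟩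
      rw [hk, Nat.add_sub_cancel] at h1 ⊢
      calc 3 * 5 ^ (k + 1) = 5 * (3 * 5 ^ k) := by ring
        _ ≤ a * ∏ q ∈ S, q := Nat.mul_le_mul ha5 h1

lemma pow_ge (k : ℕ) : 8 * k + 12 ≤ 3 * 5 ^ (k + 1) := by
  induction k with
  | zero => norm_num
  | succ k ih =>
    have : 3 * 5 ^ (k + 1 + 1) = 5 * (3 * 5 ^ (k + 1)) := by ring
    omega

/-- the inequality (*). -/
lemma star (S : Finset ℕ) (hS : ∀ q ∈ S, q.Prime ∧ q ≠ 2) (hne : S.Nonempty) (j : ℕ)
    (hj : j.Prime ∧ j ≠ 2) (hjS : j ∉ S) :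
    8 * (S.card : ℤ) < ((∏ q ∈ S, q : ℕ) : ℤ) * ((j : ℤ) - 2) + 5 := by
  have hj3 : 3 ≤ j := by
    have := hj.1.two_le
    have := hj.2
    omega
  have h1 := prod_ge S hS hne
  have hc : 0 < S.card := Finset.card_pos.mpr hne
  rcases Nat.lt_or_ge S.card 2 with h2 | h2
  · have h3 : S.card = 1 := by omega
    obtain ⟨q, rfl⟩ := Finset.card_eq_one.mp h3
    have hq := hS q (Finset.mem_singleton_self q)
    rw [Finset.prod_singleton, Finset.card_singleton]
    have hq3 : 3 ≤ q := by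
      have := hq.1.two_le
      have := hq.2
      omega
    rw [Finset.mem_singleton] at hjS
    have hq4 : q ≠ 4 := by
      rintro rfl
      exact absurd hq.1 (by norm_num)
    have hj4 : j ≠ 4 := by
      rintro rfl
      exact absurd hj.1 (by norm_num)
    rcases Nat.lt_or_ge j 5 with h4 | h4
    · have h5 : j = 3 := by omega
      subst h5
      have h6 : 5 ≤ q := by omega
      have h7 : (5 : ℤ) ≤ q := by exact_mod_cast h6
      push_cast
      linarith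
    · have h6 : (5 : ℤ) ≤ j := by exact_mod_cast h4
      have h7 : (3 : ℤ) ≤ q := by exact_mod_cast hq3
      push_cast
      nlinarith
  · obtain ⟨k, hk⟩ : ∃ k, S.card = k + 2 := ⟨S.card - 2, by omega⟩
    rw [hk] at h1
    have h3 := pow_ge k
    have h4 : k + 2 - 1 = k + 1 := by omega
    rw [h4] at h1
    have h5 : ((8 * k + 12 : ℕ) : ℤ) ≤ ((∏ q ∈ S, q : ℕ) : ℤ) := by exact_mod_cast h3.trans h1
    have h6 : (3 : ℤ) ≤ j := by exact_mod_cast hj3
    rw [hk]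
    push_cast at h5 ⊢
    nlinarith

/-- sort key. -/
def ky (n : ℕ → ℕ) (q : ℕ) : ℕ ×ₗ ℕ := toLex (n q, q)

lemma ky_inj (n : ℕ → ℕ) {q r : ℕ} (h : ky n q = ky n r) : q = r := by
  have h1 : (n q, q) = (n r, r) := toLex.injective h
  exact (Prod.mk.inj h1).2

lemma ky_lt (n : ℕ → ℕ) {q r : ℕ} (h : ky n q < ky n r) : n q ≤ n r := by
  rcases (Prod.Lex.toLex_lt_toLex).mp h with h1 | h1
  · exact h1.le
  · exact h1.1.le

section

variable (P : Finset ℕ) (m κ : ℤ) (n : ℕ → ℕ)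

/-- elements of `P` before `q`. -/
def Lo (q : ℕ) : Finset ℕ := P.filter fun r => ky n r < ky n q

/-- `m (∏ S - 1) / 2`. -/
def B (S : Finset ℕ) : ℤ := m * (((∏ q ∈ S, q : ℕ) : ℤ) - 1) / 2

/-- excess. -/
def dd (S : Finset ℕ) : ℤ := ((∑ q ∈ S, n q : ℕ) : ℤ) - κ * B m S

/-- the rounded vector. -/
def zz (q : ℕ) : ℤ :=
  B m (insert q (Lo P n q)) - B m (Lo P n q)
    + R κ (dd m κ n (insert q (Lo P n q))) - R κ (dd m κ n (Lo P n q))

end

lemma B_eq (P : Finset ℕ) (hP : ∀ q ∈ P, q.Prime ∧ q ≠ 2) (m : ℤ) (S : Finset ℕ) (hS : S ⊆ P) :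
    2 * B m S = m * (((∏ q ∈ S, q : ℕ) : ℤ) - 1) := by
  unfold B
  apply Int.mul_ediv_cancel'
  apply Dvd.dvd.mul_left
  have h1 : Odd (∏ q ∈ S, q) := by
    apply Finset.prod_induction _ Odd (fun a b => Odd.mul) odd_one
    intro q hq
    exact (hP q (hS hq)).1.odd_of_ne_two (hP q (hS hq)).2
  obtain ⟨r, hr⟩ := h1
  rw [hr]
  push_cast
  exact ⟨r, by ring⟩

lemma notMem_Lo (P : Finset ℕ) (n : ℕ → ℕ) (q : ℕ) : q ∉ Lo P n q := by
  unfold Lo
  rw [Finset.mem_filter]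
  exact fun h => lt_irrefl _ h.2

lemma zz_bounds (P : Finset ℕ) (m κ : ℤ) (n : ℕ → ℕ) (hκ : 3 ≤ κ) (q : ℕ) :
    -(2 * κ) ≤ κ * zz P m κ n q - n q ∧ κ * zz P m κ n q - n q ≤ 2 * κ := by
  have h1 := R_bounds κ (dd m κ n (insert q (Lo P n q))) hκ
  have h2 := R_bounds κ (dd m κ n (Lo P n q)) hκ
  have h3 : (n q : ℤ) = dd m κ n (insert q (Lo P n q)) + κ * B m (insert q (Lo P n q))
      - dd m κ n (Lo P n q) - κ * B m (Lo P n q) := by
    unfold dd
    rw [Finset.sum_insert (notMem_Lo P n q)]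
    push_cast
    ring
  have h4 : κ * zz P m κ n q - n q
      = (κ * R κ (dd m κ n (insert q (Lo P n q))) - dd m κ n (insert q (Lo P n q)))
        - (κ * R κ (dd m κ n (Lo P n q)) - dd m κ n (Lo P n q)) := by
    rw [h3]
    unfold zz
    ring
  constructor <;> linarith [h1.1, h1.2, h2.1, h2.2]

lemma zz_par (P : Finset ℕ) (m κ : ℤ) (n : ℕ → ℕ) (hκo : 2 ∣ κ - 1) (q : ℕ) :
    2 ∣ ((n q : ℤ) - zz P m κ n q) := by
  have h1 := R_par κ (dd m κ n (insert q (Lo P n q)))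
  have h2 := R_par κ (dd m κ n (Lo P n q))
  have h3 : (n q : ℤ) = dd m κ n (insert q (Lo P n q)) + κ * B m (insert q (Lo P n q))
      - dd m κ n (Lo P n q) - κ * B m (Lo P n q) := by
    unfold dd
    rw [Finset.sum_insert (notMem_Lo P n q)]
    push_cast
    ring
  have h4 : (n q : ℤ) - zz P m κ n q
      = (dd m κ n (insert q (Lo P n q)) - R κ (dd m κ n (insert q (Lo P n q))))
        - (dd m κ n (Lo P n q) - R κ (dd m κ n (Lo P n q)))
        + (κ - 1) * (B m (insert q (Lo P n q)) - B m (Lo P n q)) := by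
    rw [h3]
    unfold zz
    ring
  rw [h4]
  exact dvd_add (dvd_sub h1 h2) (Dvd.dvd.mul_right hκo _)

/-- telescoping over initial segments. -/
lemma zz_initial (P : Finset ℕ) (m κ : ℤ) (n : ℕ → ℕ) (k : ℕ) : ∀ S : Finset ℕ, S.card = k →
    S ⊆ P → (∀ q ∈ S, ∀ r ∈ P, ky n r < ky n q → r ∈ S) →
    ∑ q ∈ S, zz P m κ n q = B m S + R κ (dd m κ n S) := by
  induction k with
  | zero =>
    intro S hS _ _
    rw [Finset.card_eq_zero] at hS
    subst hS
    simp [B, dd, R]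
  | succ k ih =>
    intro S hc hSP hdown
    have hne : S.Nonempty := Finset.card_pos.mp (by omega)
    obtain ⟨q, hq, hmax⟩ := Finset.exists_max_image S (ky n) hne
    have hLo : S.erase q = Lo P n q := by
      ext r
      unfold Lo
      rw [Finset.mem_erase, Finset.mem_filter]
      constructor
      · rintro ⟨h1, h2⟩
        refine ⟨hSP h2, lt_of_le_of_ne (hmax r h2) ?_⟩
        intro h3
        exact h1 (ky_inj n h3)
      · rintro ⟨h1, h2⟩
        refine ⟨?_, hdown q hq r h1 h2⟩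
        rintro rfl
        exact lt_irrefl _ h2
    have hins : insert q (Lo P n q) = S := by
      rw [← hLo, Finset.insert_erase hq]
    have h1 := ih (S.erase q) (by rw [Finset.card_erase_of_mem hq]; omega)
      ((Finset.erase_subset _ _).trans hSP) (by
        intro r hr t ht htr
        rw [hLo] at hr ⊢
        unfold Lo at hr ⊢
        rw [Finset.mem_filter] at hr ⊢
        exact ⟨ht, htr.trans hr.2⟩)
    rw [← Finset.sum_erase_add _ _ hq, h1]
    unfold zz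
    rw [hins, ← hLo]
    ring

/-- the two inequalities for all sets. -/
lemma zz_sets (P : Finset ℕ) (hP : ∀ q ∈ P, q.Prime ∧ q ≠ 2) (m κ : ℤ) (hm : 1 ≤ m)
    (hκ : 3 ≤ κ) (n : ℕ → ℕ) (hd : ∀ S ⊆ P, 0 ≤ dd m κ n S) (S : Finset ℕ) (hS : S ⊆ P) :
    B m S ≤ ∑ q ∈ S, zz P m κ n q ∧ ∑ q ∈ S, zz P m κ n q ≤ B m S + dd m κ n S := by
  by_cases hdown : ∀ q ∈ S, ∀ r ∈ P, ky n r < ky n q → r ∈ S
  · rw [zz_initial P m κ n _ S rfl hS hdown]
    have h1 := R_nonneg κ _ hκ (hd S hS)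
    have h2 := R_le κ _ hκ (hd S hS)
    constructor <;> linarith
  · push Not at hdown
    obtain ⟨q, hq, j, hjP, hjq, hjS⟩ := hdown
    have hnj := ky_lt n hjq
    have hne : S.Nonempty := ⟨q, hq⟩
    have hst := star S (fun r hr => hP r (hS hr)) hne j (hP j hjP) hjS
    have hc : 1 ≤ (S.card : ℤ) := by exact_mod_cast Finset.card_pos.mpr hne
    have hsum1 : n q ≤ ∑ r ∈ S, n r := Finset.single_le_sum (f := n) (fun _ _ => Nat.zero_le _) hq
    have hsub : insert j S ⊆ P := Finset.insert_subset hjP hS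
    have h1 := hd _ hsub
    have hB1 := B_eq P hP m _ hsub
    have hB2 := B_eq P hP m _ hS
    rw [Finset.prod_insert hjS] at hB1
    unfold dd at h1
    rw [Finset.sum_insert hjS] at h1
    have hdS : dd m κ n S = ((∑ q ∈ S, n q : ℕ) : ℤ) - κ * B m S := rfl
    have hsumb : |κ * ∑ r ∈ S, zz P m κ n r - ((∑ r ∈ S, n r : ℕ) : ℤ)| ≤ 2 * κ * S.card := by
      have e1 : κ * ∑ r ∈ S, zz P m κ n r - ((∑ r ∈ S, n r : ℕ) : ℤ)
          = ∑ r ∈ S, (κ * zz P m κ n r - n r) := by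
        rw [Finset.sum_sub_distrib, Finset.mul_sum]
        push_cast
        rfl
      rw [e1]
      refine (Finset.abs_sum_le_sum_abs _ _).trans ?_
      have e2 : ∑ r ∈ S, |κ * zz P m κ n r - n r| ≤ ∑ r ∈ S, 2 * κ := by
        apply Finset.sum_le_sum
        intro r _
        have h5 := zz_bounds P m κ n hκ r
        rw [abs_le]
        exact ⟨by linarith [h5.1], h5.2⟩
      refine e2.trans (le_of_eq ?_)
      rw [Finset.sum_const, nsmul_eq_mul]
      ring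
    set A : ℤ := ((∏ q ∈ S, q : ℕ) : ℤ) with hA
    set Z := ∑ r ∈ S, zz P m κ n r with hZ
    set N : ℤ := ((∑ q ∈ S, n q : ℕ) : ℤ) with hN
    set b := B m S with hb
    set c : ℤ := (S.card : ℤ) with hcdef
    have hnjN : (n j : ℤ) ≤ N := by
      rw [hN]
      exact_mod_cast hnj.trans hsum1
    push_cast at h1 hB1
    rw [← Nat.cast_prod, ← hA] at hB1
    have hNs : (∑ x ∈ S, (n x : ℤ)) = N := by rw [hN]; push_cast; rfl
    rw [hNs] at h1
    -- 4 N ≥ κ m (A j - 1)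
    have h4N : κ * (m * (A * j - 1)) ≤ 4 * N := by
      have : 2 * (κ * B m (insert j S)) = κ * (m * (j * A - 1)) := by
        rw [← hB1]; ring
      nlinarith
    rw [abs_le] at hsumb
    -- slack
    have hx : κ * (m * (A * (j - 2) + 1)) ≤ 4 * (N - κ * b) := by
      have : 4 * (κ * b) = 2 * (κ * (m * (A - 1))) := by rw [← hB2]; ring
      nlinarith
    have hy : κ * (A * (j - 2) + 1) ≤ κ * (m * (A * (j - 2) + 1)) := by
      apply mul_le_mul_of_nonneg_left _ (by omega)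
      nlinarith
    have hdpos := hd S hS
    rw [hdS] at hdpos
    rw [hdS]
    constructor
    · by_contra hcon
      push Not at hcon
      have h5 : Z - b ≤ -1 := by omega
      have h6 : κ * (Z - b) ≤ -κ := by nlinarith
      have h7 : N - κ * b ≤ 2 * κ * c - κ := by nlinarith [hsumb.1]
      have h8 : κ * (A * (j - 2) + 1) ≤ κ * (8 * c - 4) := by nlinarith
      have h9 : A * (j - 2) + 1 ≤ 8 * c - 4 := le_of_mul_le_mul_left h8 (by omega)
      linarith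
    · by_contra hcon
      push Not at hcon
      set d := N - κ * b with hd'
      have h5 : d + 1 ≤ Z - b := by omega
      have h6 : κ * (d + 1) ≤ κ * (Z - b) := mul_le_mul_of_nonneg_left h5 (by omega)
      have h7 : (κ - 1) * d ≤ 2 * κ * c - κ := by nlinarith [hsumb.2]
      have h8 : 2 * d ≤ (κ - 1) * d := by nlinarith
      have h9 : κ * (A * (j - 2) + 1) ≤ κ * (4 * c - 2) := by nlinarith
      have h10 : A * (j - 2) + 1 ≤ 4 * c - 2 := le_of_mul_le_mul_left h9 (by omega)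
      linarith

end Pool.Agent.Helper13.NF.Rd

namespace Pool.Agent.Helper13.NF

open Rd in
/-- module M5. -/
theorem rounding13 (P : Finset ℕ) (hP : ∀ q ∈ P, q.Prime ∧ q ≠ 2) (m κ : ℕ) (hm : 0 < m)
    (hκ : 3 ≤ κ) (hκo : Odd κ) (n : ℕ → ℕ)
    (h : ∀ S ⊆ P, κ * (m * ((∏ q ∈ S, q) - 1)) ≤ 2 * ∑ q ∈ S, n q)
    (_heq : 2 * ∑ q ∈ P, n q = κ * (m * ((∏ q ∈ P, q) - 1))) :
    ∃ z : ℕ → ℕ, (∀ q ∈ P, z q ≤ n q ∧ 2 ∣ (n q - z q) ∧ κ * z q ≤ n q + 2 * κ) ∧
      (∀ S ⊆ P, m * ((∏ q ∈ S, q) - 1) ≤ 2 * ∑ q ∈ S, z q ∧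
        2 * ∑ q ∈ S, z q + (κ - 1) * (m * ((∏ q ∈ S, q) - 1)) ≤ 2 * ∑ q ∈ S, n q) := by
  have hm1 : (1 : ℤ) ≤ (m : ℤ) := by exact_mod_cast hm
  have hκ3 : (3 : ℤ) ≤ (κ : ℤ) := by exact_mod_cast hκ
  have hpos : ∀ S ⊆ P, 1 ≤ ∏ q ∈ S, q := by
    intro S hS
    exact Finset.prod_pos (fun q hq => (hP q (hS hq)).1.pos)
  have hcast : ∀ S ⊆ P, (((∏ q ∈ S, q) - 1 : ℕ) : ℤ) = ((∏ q ∈ S, q : ℕ) : ℤ) - 1 := by
    intro S hS
    rw [Nat.cast_sub (hpos S hS)]
    rfl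
  have hd : ∀ S ⊆ P, 0 ≤ dd (m : ℤ) (κ : ℤ) n S := by
    intro S hS
    have h1 : ((κ * (m * ((∏ q ∈ S, q) - 1)) : ℕ) : ℤ) ≤ ((2 * ∑ q ∈ S, n q : ℕ) : ℤ) := by
      exact_mod_cast h S hS
    rw [Nat.cast_mul, Nat.cast_mul, hcast S hS, ← B_eq P hP (m : ℤ) S hS, Nat.cast_mul] at h1
    unfold dd
    push_cast at h1 ⊢
    linarith
  have hsets := zz_sets P hP (m : ℤ) (κ : ℤ) hm1 hκ3 n hd
  have hsingle : ∀ q ∈ P, 0 ≤ zz P (m : ℤ) (κ : ℤ) n q ∧ zz P (m : ℤ) (κ : ℤ) n q ≤ n q := by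
    intro q hq
    have hsub : {q} ⊆ P := Finset.singleton_subset_iff.mpr hq
    have h1 := hsets {q} hsub
    have h2 := B_eq P hP (m : ℤ) {q} hsub
    rw [Finset.sum_singleton] at h1
    have h3 : dd (m : ℤ) (κ : ℤ) n {q} = (n q : ℤ) - κ * B (m : ℤ) {q} := by
      unfold dd
      rw [Finset.sum_singleton]
    rw [h3] at h1
    rw [Finset.prod_singleton] at h2
    have h4 : (1 : ℤ) ≤ q := by exact_mod_cast (hP q hq).1.pos
    have h5 : 0 ≤ (m : ℤ) * ((q : ℤ) - 1) := mul_nonneg (by omega) (by omega)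
    have h6 : 0 ≤ B (m : ℤ) {q} := by omega
    refine ⟨h6.trans h1.1, h1.2.trans ?_⟩
    nlinarith
  refine ⟨fun q => (zz P (m : ℤ) (κ : ℤ) n q).toNat, ?_, ?_⟩
  · intro q hq
    obtain ⟨h1, h2⟩ := hsingle q hq
    have h3 := zz_bounds P (m : ℤ) (κ : ℤ) n hκ3 q
    have h4 := zz_par P (m : ℤ) (κ : ℤ) n (by
      obtain ⟨r, hr⟩ := hκo
      rw [hr]
      push_cast
      exact ⟨r, by ring⟩) q
    have h5 : (((zz P (m : ℤ) (κ : ℤ) n q).toNat : ℕ) : ℤ) = zz P (m : ℤ) (κ : ℤ) n q :=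
      Int.toNat_of_nonneg h1
    beta_reduce
    refine ⟨by omega, by omega, ?_⟩
    have h6 : ((κ * (zz P (m : ℤ) (κ : ℤ) n q).toNat : ℕ) : ℤ) ≤ ((n q + 2 * κ : ℕ) : ℤ) := by
      rw [Nat.cast_mul, h5]
      push_cast
      linarith [h3.2]
    exact_mod_cast h6
  · intro S hS
    have h1 := hsets S hS
    have h2 := B_eq P hP (m : ℤ) S hS
    have h3 : ((∑ q ∈ S, (zz P (m : ℤ) (κ : ℤ) n q).toNat : ℕ) : ℤ)
        = ∑ q ∈ S, zz P (m : ℤ) (κ : ℤ) n q := by
      rw [Nat.cast_sum]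
      apply Finset.sum_congr rfl
      intro q hq
      exact Int.toNat_of_nonneg (hsingle q (hS hq)).1
    constructor
    · have h4 : ((m * ((∏ q ∈ S, q) - 1) : ℕ) : ℤ)
          ≤ ((2 * ∑ q ∈ S, (zz P (m : ℤ) (κ : ℤ) n q).toNat : ℕ) : ℤ) := by
        rw [Nat.cast_mul, hcast S hS, ← h2, Nat.cast_mul, h3]
        push_cast
        linarith [h1.1]
      exact_mod_cast h4
    · have h4 : ((2 * ∑ q ∈ S, (zz P (m : ℤ) (κ : ℤ) n q).toNat
          + (κ - 1) * (m * ((∏ q ∈ S, q) - 1)) : ℕ) : ℤ) ≤ ((2 * ∑ q ∈ S, n q : ℕ) : ℤ) := by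
        rw [Nat.cast_add, Nat.cast_mul, Nat.cast_mul (κ - 1), Nat.cast_mul m, hcast S hS, ← h2, h3,
          Nat.cast_sub (by omega), Nat.cast_mul]
        have h5 : dd (m : ℤ) (κ : ℤ) n S = ((∑ q ∈ S, n q : ℕ) : ℤ) - κ * B (m : ℤ) S := rfl
        rw [h5] at h1
        push_cast at h1 ⊢
        nlinarith [h1.2]
      exact_mod_cast h4

end Pool.Agent.Helper13.NF
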